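import Pool.Agent.TH.FarB

/-!
THETA, module H4 (c): the arc of a polygon.
-/

set_option autoImplicit false

namespace HexObs

namespace TH

open LP Finset ENNReal

lemma xc_le_one : xc ≤ 1 := by
  unfold xc
  have h0 := cos_pos
  have h1 : Real.cos (Real.pi / 3) ≤ Real.cos (Real.pi / 8) := by
    apply Real.cos_le_cos_of_nonneg_of_le_pi
    · linarith [Real.pi_pos]
    · linarith [Real.pi_pos]
    · linarith [Real.pi_pos]
  rw [Real.cos_pi_div_three] at h1
  rw [div_le_one (by linarith)]
  linarith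

section

variable {v : Pt} {b : Bool} {τ : ℕ → Bool} {m T : ℕ}

lemma arc_St (hP : Poly v (turn b up) τ m) (hc : cl v = 2) (hlow : ∀ w ∈ VE (pe v (turn b up) τ m), lv v ≤ lv w)
    (hhigh : ∀ w ∈ VE (pe v (turn b up) τ m), lv w < lv v + 3 * T) (i : ℕ) : vs up (turn b up) τ i ∈ St T := by
  have h1 := poly_vs_mem hP i
  have h2 := poly_vs_cl hP i
  have h3 := hlow _ h1
  have h4 := hhigh _ h1
  obtain ⟨u1, u2, u3⟩ := lv_up
  rw [mem_St, vs_up v, cl_add, cl_sub', hc, u3, lv_add, lv_sub, u1]
  refine ⟨?_, by linarith, by linarith⟩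
  have e : cl (vs v (turn b up) τ i) - 2 + 2 = cl (vs v (turn b up) τ i) := by ring
  rw [e]
  revert h2
  generalize cl (vs v (turn b up) τ i) = c
  revert c
  decide

lemma arc_ne (hP : Poly v (turn b up) τ m) {i k : ℕ} (h1 : i < k) (h2 : k < m) :
    vs up (turn b up) τ i ≠ vs up (turn b up) τ k := by
  intro h
  rw [vs_up v, vs_up v] at h
  apply hP.inj i k h1 h2
  have h3 := add_right_cancel h
  exact sub_left_injective h3

lemma arc_last (hP : Poly v (turn b up) τ m) (hl : ds (turn b up) τ (m - 1) = -turn (!b) up) :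
    vs v (turn b up) τ (m - 1) = v + turn (!b) up := by
  have hm := poly_len hP
  have h1 : vs v (turn b up) τ (m - 1 + 1) = v := by
    rw [Nat.sub_add_cancel (by omega)]
    exact hP.clv
  rw [vs_succ, hl] at h1
  nth_rewrite 2 [← h1]
  abel

/-- the first case: the lowest vertex next to the root is free. -/
lemma arc_a (hP : Poly v (turn b up) τ m) (hl : ds (turn b up) τ (m - 1) = -turn (!b) up) (hc : cl v = 2)
    (hlow : ∀ w ∈ VE (pe v (turn b up) τ m), lv v ≤ lv w)
    (hhigh : ∀ w ∈ VE (pe v (turn b up) τ m), lv w < lv v + 3 * T) (hT : 1 ≤ T)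
    (hv : v + turn (!b) up - turn b up ∉ VE (pe v (turn b up) τ m)) :
    wd τ m b true ∈ out (St T) oo up (-up) ∧ (wd τ m b true).length = m + 1 ∧
      ∀ i, i < m → vx oo up (wd τ m b true) (i + 1) = vs up (turn b up) τ i := by
  have hm := poly_len hP
  have hw := arc_last hP hl
  obtain ⟨s1, s2, s3, s4⟩ := st_e b
  obtain ⟨f1, f2, _, _⟩ := st_f b
  obtain ⟨g1, g2, _, _⟩ := st_f (!b)
  obtain ⟨u1, u2, u3⟩ := lv_up
  -- the step before the last one
  have hf : ds (turn b up) τ (m - 2) = -up := by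
    have h0 := hl
    rw [show m - 1 = m - 2 + 1 by omega] at h0
    have h1 : turn (τ (m - 2)) (ds (turn b up) τ (m - 2)) = -turn (!b) up := h0
    rcases st_a b _ _ (ds_mem hP.de.1 _) h1 with h2 | h2
    · exact h2
    · exfalso
      apply hv
      have h3 : vs v (turn b up) τ (m - 2) = v + turn (!b) up - turn b up := by
        have h4 : vs v (turn b up) τ (m - 2 + 1) = v + turn (!b) up := by
          rw [show m - 2 + 1 = m - 1 by omega]
          exact hw
        rw [vs_succ, h2] at h4
        rw [← h4]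
        abel
      rw [← h3]
      exact poly_vs_mem hP _
  have hW : wd τ m b true = b :: (tk τ (m - 2) ++ [b, !b]) := rfl
  have hlen : (wd τ m b true).length = m + 1 := by
    rw [hW]
    simp only [List.length_cons, List.length_append, tk_len, List.length_nil]
    omega
  have hx : ∀ i, i < m → vx oo up (wd τ m b true) (i + 1) = vs up (turn b up) τ i := by
    intro i hi
    rw [hW]
    exact vx_pre (by omega)
  have hd1 : dx up (wd τ m b true) (m - 2 + 1) = -up := by
    rw [hW, dx_pre le_rfl, hf]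
  have t0 : tf (wd τ m b true) (m - 2 + 1) = b := by
    rw [hW]
    exact tf_suf 0
  have t1 : tf (wd τ m b true) (m - 2 + 1 + 1) = !b := by
    rw [hW]
    exact tf_suf 1
  have hd2 : dx up (wd τ m b true) m = -turn b up := by
    have e : m = m - 2 + 1 + 1 := by omega
    have h1 : dx up (wd τ m b true) (m - 2 + 1 + 1) = turn (tf (wd τ m b true) (m - 2 + 1))
      (dx up (wd τ m b true) (m - 2 + 1)) := rfl
    rw [← e] at h1
    rw [h1, t0, hd1, s1]
  have hd3 : dx up (wd τ m b true) (m + 1) = -up := by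
    have e : m - 2 + 1 + 1 = m := by omega
    rw [e] at t1
    have h1 : dx up (wd τ m b true) (m + 1) = turn (tf (wd τ m b true) m) (dx up (wd τ m b true) m) := rfl
    rw [h1, t1, hd2, s2]
  have hxm : vx oo up (wd τ m b true) m = up + turn (!b) up := by
    have h1 := hx (m - 1) (by omega)
    rw [Nat.sub_add_cancel (by omega), vs_up v, hw] at h1
    rw [h1]
    abel
  have hx1 : vx oo up (wd τ m b true) (m + 1) = up + turn (!b) up - turn b up := by
    have h1 : vx oo up (wd τ m b true) (m + 1) = vx oo up (wd τ m b true) m + dx up (wd τ m b true) m := rfl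
    rw [h1, hxm, hd2]
    abel
  have hx2 : tip oo up (wd τ m b true) = turn (!b) up - turn b up := by
    have h1 : tip oo up (wd τ m b true) = vx oo up (wd τ m b true) (m + 1) + dx up (wd τ m b true) (m + 1) := by
      unfold tip
      rw [hlen]
      rfl
    rw [h1, hx1, hd3]
    abel
  have hin : ∀ i, 1 ≤ i → i ≤ m + 1 → vx oo up (wd τ m b true) i ∈ St T := by
    intro i h1 h2
    rcases Nat.lt_or_ge m i with h3 | h3
    · have e : i = m + 1 := by omega
      rw [e, hx1, mem_St, cl_sub', cl_add, u3, g2, f2, lv_sub, lv_add, u1, g1, f1]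
      have hT' : (1 : ℤ) ≤ T := by exact_mod_cast hT
      exact ⟨Or.inr (by ring), by norm_num, by linarith⟩
    · have h4 := hx (i - 1) (by omega)
      rw [Nat.sub_add_cancel h1] at h4
      rw [h4]
      exact arc_St hP hc hlow hhigh _
  refine ⟨⟨⟨?_, ?_⟩, ?_, ?_⟩, hlen, hx⟩
  · intro i h1 h2
    rw [hlen] at h2
    exact hin i h1 h2
  · intro i k h1 h2 h3
    rw [hlen] at h2
    rcases Nat.eq_zero_or_pos i with h0 | h0
    · have h4 := hin k (by omega) h2
      rw [← h3, h0] at h4
      have h5 : (0 : ℤ) < lv oo := (mem_St.1 h4).2.1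
      exact absurd h5 (by decide)
    · have h4 := hx (i - 1) (by omega)
      rw [Nat.sub_add_cancel h0] at h4
      rcases Nat.lt_or_ge m k with h5 | h5
      · have e : k = m + 1 := by omega
        rw [e, hx1, h4, vs_up v] at h3
        apply hv
        have h6 : vs v (turn b up) τ (i - 1) = v + turn (!b) up - turn b up := by
          have h7 : vs v (turn b up) τ (i - 1) = (vs v (turn b up) τ (i - 1) - v + up) + v - up := by abel
          rw [h7, h3]
          abel
        rw [← h6]
        exact poly_vs_mem hP _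
      · have h6 := hx (k - 1) (by omega)
        rw [Nat.sub_add_cancel (by omega)] at h6
        rw [h4, h6] at h3
        exact arc_ne hP (by omega) (by omega) h3
  · rw [hx2, mem_St, lv_sub, g1, f1]
    rintro ⟨_, h, _⟩
    norm_num at h
  · rw [hlen]
    exact hd3

/-- the second case: the lowest vertex next to the root belongs to the polygon. -/
lemma arc_b (hP : Poly v (turn b up) τ m) (hl : ds (turn b up) τ (m - 1) = -turn (!b) up) (hc : cl v = 2)
    (hlow : ∀ w ∈ VE (pe v (turn b up) τ m), lv v ≤ lv w)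
    (hhigh : ∀ w ∈ VE (pe v (turn b up) τ m), lv w < lv v + 3 * T)
    (hv : v + turn (!b) up - turn b up ∈ VE (pe v (turn b up) τ m)) :
    wd τ m b false ∈ out (St T) oo up (-up) ∧ (wd τ m b false).length = m - 1 ∧
      (∀ i, i < m - 1 → vx oo up (wd τ m b false) (i + 1) = vs up (turn b up) τ i) ∧
      ds (turn b up) τ (m - 2) = turn b up := by
  have hm := poly_len hP
  have hw := arc_last hP hl
  have hE : IsPoly (pe v (turn b up) τ m) := ⟨_, _, _, _, hP, rfl⟩
  obtain ⟨s1, s2, s3, s4⟩ := st_e b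
  obtain ⟨f1, f2, _, _⟩ := st_f b
  obtain ⟨g1, g2, _, _⟩ := st_f (!b)
  obtain ⟨u1, u2, u3⟩ := lv_up
  -- the edge from that vertex
  have hout : (v + turn (!b) up - turn b up, turn b up) ∈ pe v (turn b up) τ m := by
    obtain ⟨e, x, h1, h2⟩ := isPoly_prev hE hv
    have hd1 := isPoly_de hE h1
    have hd2 := isPoly_de hE h2
    obtain ⟨y, h3⟩ := isPoly_next hE h2
    have a1 := hlow _ (Finset.mem_image_of_mem Prod.fst h1)
    have a2 := hlow _ (Finset.mem_image_of_mem Prod.fst h3)
    simp only [lv_sub, lv_add, f1, g1] at a1 a2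
    have c1 : cl (v + turn (!b) up - turn b up) ≠ 1 := hd2.2.1
    have c2 : cl (v + turn (!b) up - turn b up - e) ≠ 1 := hd1.2.1
    have c3 : cl (v + turn (!b) up - turn b up + turn x e) ≠ 1 := hd2.2.2
    rw [cl_sub'] at c2
    rw [cl_add] at c3
    obtain ⟨_, y, hy1, hy2⟩ := st_low e hd1.1 x _ c1 c2 c3 (by linarith) (by linarith)
    by_cases hyb : y = b
    · rw [hy1, hyb] at h2
      exact h2
    · exfalso
      have hyb' : (!y) = b := (by decide : ∀ y b : Bool, y ≠ b → (!y) = b) y b hyb
      rw [hyb'] at hy2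
      rw [hy2] at h1
      have h4 : v + turn (!b) up - turn b up - -turn b up = v + turn (!b) up := by abel
      rw [h4] at h1
      have h5 : (v + turn (!b) up, -turn (!b) up) ∈ pe v (turn b up) τ m := by
        have h6 := w_eg_mem hP (m - 1)
        unfold eg at h6
        rwa [hw, hl] at h6
      have h7 := isPoly_fun hE h1 h5
      exact s4 (neg_injective h7)
  obtain ⟨k, hk, hk2⟩ := Finset.mem_image.1 hout
  rw [Finset.mem_range] at hk
  have k1 : vs v (turn b up) τ k = v + turn (!b) up - turn b up := congrArg Prod.fst hk2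
  have k2 : ds (turn b up) τ k = turn b up := congrArg Prod.snd hk2
  have k3 : vs v (turn b up) τ (k + 1) = vs v (turn b up) τ (m - 1) := by
    rw [vs_succ, k1, k2, hw]
    abel
  have k4 := w_mod_eq hP k3
  have k5 : k = m - 2 := by
    rw [Nat.mod_eq_of_lt (show m - 1 < m by omega)] at k4
    rcases Nat.lt_or_ge (k + 1) m with h1 | h1
    · rw [Nat.mod_eq_of_lt h1] at k4
      omega
    · have h2 : k + 1 = m := by omega
      rw [h2, Nat.mod_self] at k4
      omega
  rw [k5] at k1 k2
  -- the step before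
  have hg : ds (turn b up) τ (m - 3) = -turn (!b) up := by
    have e : m - 2 = m - 3 + 1 := by omega
    have h0 := k2
    rw [e] at h0
    have h1 : turn (τ (m - 3)) (ds (turn b up) τ (m - 3)) = turn b up := h0
    apply st_c b _ _ (ds_mem hP.de.1 _) h1
    have h2 := hlow _ (poly_vs_mem hP (m - 3))
    have h3 : vs v (turn b up) τ (m - 3) = v + turn (!b) up - turn b up - ds (turn b up) τ (m - 3) := by
      rw [← k1, e, vs_succ]
      abel
    rw [h3, lv_sub, lv_sub, lv_add, f1, g1] at h2
    linarith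
  have hW : wd τ m b false = b :: (tk τ (m - 3) ++ [b]) := rfl
  have hlen : (wd τ m b false).length = m - 1 := by
    rw [hW]
    simp only [List.length_cons, List.length_append, tk_len, List.length_nil]
    omega
  have hx : ∀ i, i < m - 1 → vx oo up (wd τ m b false) (i + 1) = vs up (turn b up) τ i := by
    intro i hi
    rw [hW]
    exact vx_pre (by omega)
  have hd1 : dx up (wd τ m b false) (m - 3 + 1) = -turn (!b) up := by
    rw [hW, dx_pre le_rfl, hg]
  have t0 : tf (wd τ m b false) (m - 3 + 1) = b := by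
    rw [hW]
    exact tf_suf 0
  have hd2 : dx up (wd τ m b false) (m - 1) = -up := by
    have e : m - 1 = m - 3 + 1 + 1 := by omega
    have h1 : dx up (wd τ m b false) (m - 3 + 1 + 1) = turn (tf (wd τ m b false) (m - 3 + 1))
      (dx up (wd τ m b false) (m - 3 + 1)) := rfl
    rw [← e] at h1
    rw [h1, t0, hd1, s3]
  have hxm : vx oo up (wd τ m b false) (m - 1) = up + turn (!b) up - turn b up := by
    have h1 := hx (m - 2) (by omega)
    rw [show m - 2 + 1 = m - 1 by omega, vs_up v, k1] at h1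
    rw [h1]
    abel
  have hx2 : tip oo up (wd τ m b false) = turn (!b) up - turn b up := by
    have h1 : tip oo up (wd τ m b false) = vx oo up (wd τ m b false) (m - 1) +
        dx up (wd τ m b false) (m - 1) := by
      unfold tip
      rw [hlen]
      rfl
    rw [h1, hxm, hd2]
    abel
  have hin : ∀ i, 1 ≤ i → i ≤ m - 1 → vx oo up (wd τ m b false) i ∈ St T := by
    intro i h1 h2
    have h4 := hx (i - 1) (by omega)
    rw [Nat.sub_add_cancel h1] at h4
    rw [h4]
    exact arc_St hP hc hlow hhigh _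
  refine ⟨⟨⟨?_, ?_⟩, ?_, ?_⟩, hlen, hx, k2⟩
  · intro i h1 h2
    rw [hlen] at h2
    exact hin i h1 h2
  · intro i k h1 h2 h3
    rw [hlen] at h2
    rcases Nat.eq_zero_or_pos i with h0 | h0
    · have h4 := hin k (by omega) h2
      rw [← h3, h0] at h4
      have h5 : (0 : ℤ) < lv oo := (mem_St.1 h4).2.1
      exact absurd h5 (by decide)
    · have h4 := hx (i - 1) (by omega)
      rw [Nat.sub_add_cancel h0] at h4
      have h6 := hx (k - 1) (by omega)
      rw [Nat.sub_add_cancel (by omega)] at h6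
      rw [h4, h6] at h3
      exact arc_ne hP (by omega) (by omega) h3
  · rw [hx2, mem_St, lv_sub, g1, f1]
    rintro ⟨_, h, _⟩
    norm_num at h
  · rw [hlen]
    exact hd2

/-- the arc of a polygon. -/
theorem poly_arc (hP : Poly v (turn b up) τ m) (hl : ds (turn b up) τ (m - 1) = -turn (!b) up) (hc : cl v = 2)
    (hlow : ∀ w ∈ VE (pe v (turn b up) τ m), lv v ≤ lv w)
    (hhigh : ∀ w ∈ VE (pe v (turn b up) τ m), lv w < lv v + 3 * T) (hT : 1 ≤ T) {ρ : ℕ}
    (hρ : 1 ≤ ρ → ∃ w ∈ VE (pe v (turn b up) τ m), (3 * ρ + 1 : ℤ) ≤ |nn w - nn v|) :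
    ∃ c, wd τ m b c ∈ FA T ρ ∧ (c = false → ds (turn b up) τ (m - 2) = turn b up) ∧
      ENNReal.ofReal (xc ^ m) ≤ ENNReal.ofReal xc⁻¹ * wE (wd τ m b c) := by
  have hm := poly_len hP
  have hx0 := xc_pos
  have hx1 := xc_le_one
  have hw := arc_last hP hl
  obtain ⟨g1, g2, g3, g4⟩ := st_f (!b)
  obtain ⟨u1, u2, u3⟩ := lv_up
  -- the vertex far away
  have hfar : ∃ j, j < m ∧ (1 ≤ ρ → (3 * ρ : ℤ) ≤ |nn (vs up (turn b up) τ j)| ∧ j ≠ m - 1) := by
    rcases Nat.eq_zero_or_pos ρ with h0 | h0
    · exact ⟨0, by omega, fun h => by omega⟩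
    · obtain ⟨w, hw1, hw2⟩ := hρ h0
      unfold VE pe at hw1
      obtain ⟨p, hp, rfl⟩ := Finset.mem_image.1 hw1
      obtain ⟨j, hj, rfl⟩ := Finset.mem_image.1 hp
      rw [Finset.mem_range] at hj
      have hw3 : (3 * ρ + 1 : ℤ) ≤ |nn (vs v (turn b up) τ j) - nn v| := hw2
      have h0' : (1 : ℤ) ≤ ρ := by exact_mod_cast h0
      refine ⟨j, hj, fun _ => ⟨?_, ?_⟩⟩
      · rw [vs_up v, nn_add, nn_sub, u2]
        rcases le_abs.1 hw3 with h | h
        · exact le_abs.2 (Or.inl (by linarith))
        · exact le_abs.2 (Or.inr (by linarith))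
      · intro hjm
        rw [hjm, hw, nn_add] at hw3
        rcases le_abs.1 hw3 with h | h <;> linarith
  obtain ⟨j, hj, hj2⟩ := hfar
  by_cases hv : v + turn (!b) up - turn b up ∈ VE (pe v (turn b up) τ m)
  · obtain ⟨a1, a2, a3, a4⟩ := arc_b hP hl hc hlow hhigh hv
    refine ⟨false, ⟨a1, ?_⟩, fun _ => a4, ?_⟩
    · rcases Nat.eq_zero_or_pos ρ with h0 | h0
      · refine ⟨1, le_rfl, by omega, ?_⟩
        rw [h0]
        simp
      · obtain ⟨b1, b2⟩ := hj2 h0
        refine ⟨j + 1, by omega, by omega, ?_⟩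
        rw [a3 j (by omega)]
        exact b1
    · unfold wE
      rw [a2, ← ENNReal.ofReal_mul (inv_nonneg.2 hx0.le)]
      apply ENNReal.ofReal_le_ofReal
      have h1 : xc ^ m = xc * xc ^ (m - 1) := by
        rw [← pow_succ', Nat.sub_add_cancel (by omega)]
      rw [h1]
      apply mul_le_mul_of_nonneg_right _ (pow_nonneg hx0.le _)
      have h2 : 1 ≤ xc⁻¹ := (one_le_inv₀ hx0).2 hx1
      linarith
  · obtain ⟨a1, a2, a3⟩ := arc_a hP hl hc hlow hhigh hT hv
    refine ⟨true, ⟨a1, ?_⟩, fun h => absurd h (by decide), ?_⟩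
    · rcases Nat.eq_zero_or_pos ρ with h0 | h0
      · refine ⟨1, le_rfl, by omega, ?_⟩
        rw [h0]
        simp
      · obtain ⟨b1, b2⟩ := hj2 h0
        refine ⟨j + 1, by omega, by omega, ?_⟩
        rw [a3 j hj]
        exact b1
    · unfold wE
      rw [a2, ← ENNReal.ofReal_mul (inv_nonneg.2 hx0.le)]
      apply ENNReal.ofReal_le_ofReal
      apply le_of_eq
      rw [pow_succ]
      field_simp

end

end TH

end HexObs
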