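import Pool.Agent.TH.Defs
import Pool.Agent.HexPG.Hand
import Mathlib.NumberTheory.Harmonic.Bounds

/-!
# Summation by parts: the sum of the squares of the heights from the tail of the polygon weights
-/

set_option autoImplicit false

namespace HexObs

namespace TH

open LP Finset ENNReal

lemma nu_mono {g g' : Finset (Pt × Pt) → ℝ≥0∞} (h : ∀ E, g E ≤ g' E) : nu g ≤ nu g' := by
  unfold nu
  refine ENNReal.tsum_le_tsum fun E => ?_
  exact ENNReal.div_le_div_right (mul_le_mul' (h E.1) le_rfl) _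

lemma nu_add (g g' : Finset (Pt × Pt) → ℝ≥0∞) : nu (fun E => g E + g' E) = nu g + nu g' := by
  unfold nu
  rw [← ENNReal.tsum_add]
  refine tsum_congr fun E => ?_
  rw [add_mul, ENNReal.add_div]

lemma nu_mul (a : ℝ≥0∞) (g : Finset (Pt × Pt) → ℝ≥0∞) : nu (fun E => a * g E) = a * nu g := by
  unfold nu
  rw [← ENNReal.tsum_mul_left]
  refine tsum_congr fun E => ?_
  rw [mul_assoc, mul_div_assoc]

lemma nu_sum {ι : Type*} (s : Finset ι) (a : ι → ℝ≥0∞) (g : ι → Finset (Pt × Pt) → ℝ≥0∞) :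
    nu (fun E => ∑ i ∈ s, a i * g i E) = ∑ i ∈ s, a i * nu (g i) := by
  classical
  induction s using Finset.induction_on with
  | empty => simp [nu]
  | insert i s hi ih =>
    simp only [Finset.sum_insert hi]
    rw [nu_add, nu_mul, ih]

lemma sum_odd (r : ℕ) : ∑ j ∈ range r, (2 * j + 1) = r ^ 2 := by
  induction r with
  | zero => simp
  | succ r ih =>
    rw [Finset.sum_range_succ, ih]
    ring

lemma sq_le_sum (r R : ℕ) : (if r ≤ R then ((r : ℝ≥0∞)) ^ 2 else 0) ≤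
    ∑ j ∈ range R, ((2 * j + 1 : ℕ) : ℝ≥0∞) * (if j + 1 ≤ r then 1 else 0) := by
  split_ifs with h
  · calc ((r : ℝ≥0∞)) ^ 2 = ∑ j ∈ range r, ((2 * j + 1 : ℕ) : ℝ≥0∞) * (if j + 1 ≤ r then 1 else 0) := by
          rw [← Nat.cast_pow, ← sum_odd r, Nat.cast_sum]
          refine Finset.sum_congr rfl fun j hj => ?_
          rw [if_pos (Nat.succ_le_of_lt (Finset.mem_range.1 hj)), mul_one]
      _ ≤ _ := Finset.sum_le_sum_of_subset (Finset.range_subset_range.2 h)
  · exact zero_le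

lemma sum_split {f g : ℕ → ℝ} {J : ℕ} (hf : ∀ j, 0 ≤ f j) (hg : ∀ j, 0 ≤ g j)
    (h : ∀ j, J ≤ j → f j ≤ g j) (R : ℕ) :
    ∑ j ∈ range R, f j ≤ ∑ j ∈ range J, f j + ∑ j ∈ range R, g j := by
  have h1 : ∀ j ∈ range R, f j ≤ (if j < J then f j else 0) + g j := by
    intro j _
    split_ifs with hj
    · linarith [hg j]
    · linarith [h j (not_lt.1 hj)]
  refine (Finset.sum_le_sum h1).trans ?_
  rw [Finset.sum_add_distrib]
  have h2 : ∑ j ∈ range R, (if j < J then f j else 0) ≤ ∑ j ∈ range J, f j := by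
    rw [← Finset.sum_filter]
    refine Finset.sum_le_sum_of_subset_of_nonneg (fun j hj => ?_) (fun j _ _ => hf j)
    exact Finset.mem_range.2 (Finset.mem_filter.1 hj).2
  linarith

theorem sum_sq_of {c lam : ℝ}
    (ht : ∀ j : ℕ, nu (fun E => if j ≤ ro 0 E then 1 else 0) ≤ 2 * (HexPolygon.Sall - HexPolygon.S j))
    (hc : Filter.Tendsto (fun T : ℕ => (T : ℝ) ^ 2 * (HexPolygon.Sall - HexPolygon.S T).toReal) Filter.atTop
      (nhds c)) (h : c < lam) : ∃ C : ℝ, ∀ R : ℕ, 1 ≤ R →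
    nu (fun E => if ro 0 E ≤ R then ((ro 0 E : ℝ≥0∞)) ^ 2 else 0) ≤ ENNReal.ofReal (4 * lam * Real.log R + C) := by
  set d : ℕ → ℝ := fun j => (HexPolygon.Sall - HexPolygon.S (j + 1)).toReal with hd
  have d0 : ∀ j, 0 ≤ d j := fun j => ENNReal.toReal_nonneg
  have hS : ∀ j, HexPolygon.Sall - HexPolygon.S (j + 1) = ENNReal.ofReal (d j) := by
    intro j
    have : HexPolygon.Sall - HexPolygon.S (j + 1) ≠ ⊤ := by
      refine ENNReal.sub_ne_top ?_
      rw [HexPolygon.total]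
      exact ENNReal.ofReal_ne_top
    exact (ENNReal.ofReal_toReal this).symm
  have hc0 : 0 ≤ c := ge_of_tendsto' hc fun T => mul_nonneg (sq_nonneg _) ENNReal.toReal_nonneg
  have hlam : 0 < lam := lt_of_le_of_lt hc0 h
  obtain ⟨J, hJ⟩ := Filter.eventually_atTop.1 (hc.eventually (gt_mem_nhds h))
  set f : ℕ → ℝ := fun j => (2 * (j : ℝ) + 1) * (2 * d j) with hf
  set g : ℕ → ℝ := fun j => 4 * lam * ((j : ℝ) + 1)⁻¹ with hg
  have f0 : ∀ j, 0 ≤ f j := fun j => mul_nonneg (by positivity) (by linarith [d0 j])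
  have g0 : ∀ j, 0 ≤ g j := fun j => by positivity
  have fg : ∀ j, J ≤ j → f j ≤ g j := by
    intro j hj
    have h1 := hJ (j + 1) (by omega)
    push_cast at h1
    have hj1 : (0 : ℝ) < (j : ℝ) + 1 := by positivity
    have h2 : f j ≤ 4 * ((j : ℝ) + 1) * d j := by
      simp only [hf]
      nlinarith [d0 j]
    have h3 : 4 * ((j : ℝ) + 1) * d j = 4 * (((j : ℝ) + 1) ^ 2 * d j) * ((j : ℝ) + 1)⁻¹ := by
      field_simp
    rw [h3] at h2
    refine h2.trans ?_
    simp only [hg]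
    refine mul_le_mul_of_nonneg_right ?_ (by positivity)
    linarith
  refine ⟨∑ j ∈ range J, f j + 4 * lam, fun R hR => ?_⟩
  have key : nu (fun E => if ro 0 E ≤ R then ((ro 0 E : ℝ≥0∞)) ^ 2 else 0) ≤
      ∑ j ∈ range R, ENNReal.ofReal (f j) := by
    refine (nu_mono fun E => sq_le_sum (ro 0 E) R).trans ?_
    rw [nu_sum (range R) (fun j => ((2 * j + 1 : ℕ) : ℝ≥0∞)) (fun j E => if j + 1 ≤ ro 0 E then 1 else 0)]
    refine Finset.sum_le_sum fun j _ => ?_
    refine (mul_le_mul' le_rfl (ht (j + 1))).trans (le_of_eq ?_)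
    rw [hS j]
    simp only [hf]
    rw [ENNReal.ofReal_mul (by positivity), ENNReal.ofReal_mul (by norm_num)]
    congr 1
    · rw [show (2 * (j : ℝ) + 1) = ((2 * j + 1 : ℕ) : ℝ) by push_cast; ring, ENNReal.ofReal_natCast]
    · rw [show (2 : ℝ) = ((2 : ℕ) : ℝ) by norm_num, ENNReal.ofReal_natCast]
      norm_num
  refine key.trans ?_
  rw [← ENNReal.ofReal_sum_of_nonneg fun j _ => f0 j]
  refine ENNReal.ofReal_le_ofReal ?_
  refine (sum_split f0 g0 fg R).trans ?_
  have hh : ∑ j ∈ range R, g j ≤ 4 * lam * (1 + Real.log R) := by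
    simp only [hg]
    rw [← Finset.mul_sum]
    refine mul_le_mul_of_nonneg_left ?_ (by positivity)
    have := harmonic_le_one_add_log R
    refine le_trans (le_of_eq ?_) this
    rw [harmonic]
    push_cast
    rfl
  linarith

end TH

end HexObs
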