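import Pool.Agent.HexLoop.Shift
import Pool.Agent.HexPG.Hand

/-!
THETA, module H3, part 1: the root of a polygon (rightmost site of the lowest row), the list of its sites.
-/

set_option autoImplicit false

namespace HexObs

namespace TH

open LP Finset

/-- `b` is the rightmost site of the lowest row of `E`. -/
def IsRoot (E : Finset (Pt × Pt)) (b : Pt) : Prop :=
  b ∈ VE E ∧ ∀ v ∈ VE E, (CC.ph b).2 < (CC.ph v).2 ∨ ((CC.ph b).2 = (CC.ph v).2 ∧ v.1 ≤ b.1)

lemma VE_ne {E : Finset (Pt × Pt)} (hE : IsPoly E) : (VE E).Nonempty := by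
  obtain ⟨v, d, τ, m, h, rfl⟩ := hE
  exact ⟨v, Finset.mem_image.2 ⟨eg v d τ 0, w_eg_mem h 0, rfl⟩⟩

lemma VE_Vt {E : Finset (Pt × Pt)} (hE : IsPoly E) {v : Pt} (hv : v ∈ VE E) : Vt v := by
  obtain ⟨p, hp, rfl⟩ := Finset.mem_image.1 hv
  exact (isPoly_de hE hp).2.1

lemma Vt_lv {v : Pt} (h : Vt v) : CC.lv v % 3 ≠ 1 := by
  rw [Vt_iff] at h
  unfold nn at h
  unfold CC.lv
  omega

theorem exists_root {E : Finset (Pt × Pt)} (hE : IsPoly E) : ∃ b, IsRoot E b := by
  obtain ⟨b, hb, h⟩ := Finset.exists_min_image (VE E) (fun v => toLex ((CC.ph v).2, -v.1)) (VE_ne hE)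
  refine ⟨b, hb, fun v hv => ?_⟩
  have h1 := h v hv
  rw [Prod.Lex.toLex_le_toLex] at h1
  simp only at h1
  rcases h1 with h1 | ⟨h1, h2⟩
  · exact Or.inl h1
  · exact Or.inr ⟨h1, by omega⟩

/-- the two edges at the root -/
theorem root_edges {E : Finset (Pt × Pt)} (hE : IsPoly E) {b : Pt} (hb : IsRoot E b) :
    nn b % 3 = 0 ∧ (((b, (-1, 0)) ∈ E ∧ (b + (0, 1), -(0, 1)) ∈ E) ∨
      ((b, (0, 1)) ∈ E ∧ (b + (-1, 0), -(-1, 0)) ∈ E)) := by
  obtain ⟨d, t, h1, h2⟩ := isPoly_prev hE hb.1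
  have hd : d ∈ dirs := (isPoly_de hE h1).1
  have hne : turn t d ≠ -d := (w_turn_ne d hd t).2.1
  have hde : De (b, turn t d) := isPoly_de hE h2
  have hde' : De (b, -d) := by
    have h3 := w_de_rv (isPoly_de hE h1)
    unfold rv at h3
    simp only [sub_add_cancel] at h3
    exact h3
  have hv1 : b + turn t d ∈ VE E := by
    obtain ⟨c, hc⟩ := isPoly_next hE h2
    exact Finset.mem_image.2 ⟨_, hc, rfl⟩
  have hv2 : b + -d ∈ VE E := by
    rw [← sub_eq_add_neg]
    exact Finset.mem_image.2 ⟨_, h1, rfl⟩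
  have key : ∀ e : Pt, De (b, e) → b + e ∈ VE E →
      (nn b % 3 = 2 ∧ e = (-1, 1)) ∨ (nn b % 3 = 0 ∧ (e = (0, 1) ∨ e = (-1, 0))) := by
    intro e he hv
    have h3 := hb.2 _ hv
    have h4 := De_cases he
    have h5 := lv_mod b
    unfold CC.ph at h3
    unfold lv nn at h5
    unfold nn at h4 ⊢
    simp only [Prod.fst_add, Prod.snd_add] at h3
    rcases h4 with ⟨h4, rfl | rfl | rfl⟩ | ⟨h4, rfl | rfl | rfl⟩
    · exfalso
      simp only at h3
      omega
    · exact Or.inl ⟨h4, rfl⟩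
    · exfalso
      simp only at h3
      omega
    · exact Or.inr ⟨h4, Or.inl rfl⟩
    · exact Or.inr ⟨h4, Or.inr rfl⟩
    · exfalso
      simp only at h3
      omega
  have k1 := key _ hde hv1
  have k2 := key _ hde' hv2
  rcases k1 with ⟨a1, a2⟩ | ⟨a1, a2⟩
  · rcases k2 with ⟨b1, b2⟩ | ⟨b1, b2⟩
    · exact absurd (a2.trans b2.symm) hne
    · omega
  · rcases k2 with ⟨b1, b2⟩ | ⟨b1, b2⟩
    · omega
    · refine ⟨a1, ?_⟩
      rcases a2 with a2 | a2
      · right
        rcases b2 with b2 | b2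
        · exact absurd (a2.trans b2.symm) hne
        · rw [← a2, ← b2, neg_neg, ← sub_eq_add_neg]
          exact ⟨h2, h1⟩
      · left
        rcases b2 with b2 | b2
        · rw [← a2, ← b2, neg_neg, ← sub_eq_add_neg]
          exact ⟨h2, h1⟩
        · exact absurd (a2.trans b2.symm) hne

/-- the normalised root -/
def r0 : Pt := (1, 1)

/-- `L` is the list of the sites of the rooted polygon `E`, from the left neighbour of the root to the root. -/
def RL (E : Finset (Pt × Pt)) (L : List (ℤ × ℤ)) : Prop :=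
  ∃ τ m, Poly r0 (-1, 0) τ m ∧ E = pe r0 (-1, 0) τ m ∧
    L = (List.range m).map (fun i => CC.ph (vs r0 (-1, 0) τ (i + 1)))

theorem exists_RL {E : Finset (Pt × Pt)} (hE : IsPoly E) (h : (r0, (-1, 0)) ∈ E) : ∃ L, RL E L := by
  obtain ⟨τ, m, h1, h2⟩ := root_at hE h
  exact ⟨_, τ, m, h1, h2, rfl⟩

theorem RL_length {E : Finset (Pt × Pt)} {L : List (ℤ × ℤ)} (h : RL E L) : L.length = E.card := by
  obtain ⟨τ, m, h1, rfl, rfl⟩ := h
  rw [List.length_map, List.length_range, pe_card h1]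

theorem RL_mem {E : Finset (Pt × Pt)} {L : List (ℤ × ℤ)} (h : RL E L) {v : Pt} (hv : v ∈ VE E) : CC.ph v ∈ L := by
  obtain ⟨τ, m, h1, rfl, rfl⟩ := h
  obtain ⟨p, hp, rfl⟩ := Finset.mem_image.1 hv
  obtain ⟨i, hi, rfl⟩ := Finset.mem_image.1 hp
  rw [Finset.mem_range] at hi
  rw [List.mem_map]
  rcases Nat.eq_zero_or_pos i with rfl | hpos
  · refine ⟨m - 1, List.mem_range.2 (by have := h1.pos; omega), ?_⟩
    rw [show m - 1 + 1 = m by have := h1.pos; omega, h1.clv]
    rfl
  · refine ⟨i - 1, List.mem_range.2 (by omega), ?_⟩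
    rw [show i - 1 + 1 = i by omega]
    rfl

lemma RL_mem' {E : Finset (Pt × Pt)} {L : List (ℤ × ℤ)} (h : RL E L) {q : ℤ × ℤ} (hq : q ∈ L) :
    ∃ v ∈ VE E, CC.ph v = q := by
  obtain ⟨τ, m, h1, rfl, rfl⟩ := h
  obtain ⟨i, _, rfl⟩ := List.mem_map.1 hq
  exact ⟨_, Finset.mem_image.2 ⟨_, w_eg_mem h1 (i + 1), rfl⟩, rfl⟩

lemma poly_Vt {v d : Pt} {τ : ℕ → Bool} {m : ℕ} (h : Poly v d τ m) (i : ℕ) : Vt (vs v d τ i) := (poly_de h i).2.1

/-- the list determines the polygon -/
theorem RL_inj {E E' : Finset (Pt × Pt)} {L : List (ℤ × ℤ)} (h : RL E L) (h' : RL E' L) : E = E' := by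
  obtain ⟨τ, m, h1, rfl, hL⟩ := h
  obtain ⟨τ', m', h1', rfl, hL'⟩ := h'
  have hm : m = m' := by
    have e1 : L.length = m := by rw [hL, List.length_map, List.length_range]
    have e2 : L.length = m' := by rw [hL', List.length_map, List.length_range]
    omega
  subst hm
  have hv : ∀ i, i ≤ m → vs r0 (-1, 0) τ i = vs r0 (-1, 0) τ' i := by
    intro i hi
    rcases Nat.eq_zero_or_pos i with rfl | hpos
    · rfl
    · have h2 : i - 1 < L.length := by
        rw [hL, List.length_map, List.length_range]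
        omega
      have e1 : L[i - 1] = CC.ph (vs r0 (-1, 0) τ i) := by
        simp only [hL, List.getElem_map, List.getElem_range]
        rw [show i - 1 + 1 = i by omega]
      have e2 : L[i - 1] = CC.ph (vs r0 (-1, 0) τ' i) := by
        simp only [hL', List.getElem_map, List.getElem_range]
        rw [show i - 1 + 1 = i by omega]
      exact CC.ph_inj (Vt_lv (poly_Vt h1 i)) (Vt_lv (poly_Vt h1' i)) (e1.symm.trans e2)
  unfold pe
  apply Finset.image_congr
  intro i hi
  rw [Finset.mem_coe, Finset.mem_range] at hi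
  unfold eg
  have h3 := hv (i + 1) (by omega)
  rw [vs_succ, vs_succ, hv i (by omega)] at h3
  rw [hv i (by omega), add_left_cancel h3]

/-- the list of the sites of a polygon with the root `r0` -/
theorem RL_Polygon {E : Finset (Pt × Pt)} {L : List (ℤ × ℤ)} (h : RL E L) (hr : IsRoot E r0) :
    HexPolygon.Polygon L := by
  have hmem : ∀ q ∈ L, ∃ v ∈ VE E, CC.ph v = q := fun q hq => RL_mem' h hq
  obtain ⟨τ, m, h1, rfl, hL⟩ := h
  have hlen : L.length = m := by rw [hL, List.length_map, List.length_range]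
  have h3 := poly_len h1
  have hg : ∀ i (hi : i < L.length), L[i] = CC.ph (vs r0 (-1, 0) τ (i + 1)) := by
    intro i hi
    simp only [hL, List.getElem_map, List.getElem_range]
  refine ⟨?_, ?_, by omega, ?_, ?_, ?_, ?_⟩
  · rw [List.isChain_iff_getElem]
    intro i hi
    rw [hg, hg, vs_succ (i + 1)]
    have h4 := De_cases (poly_de h1 (i + 1))
    have h5 := lv_mod (vs r0 (-1, 0) τ (i + 1))
    have h6 : CC.lv (vs r0 (-1, 0) τ (i + 1)) = lv (vs r0 (-1, 0) τ (i + 1)) := rfl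
    rcases h4 with ⟨h4, h7⟩ | ⟨h4, h7⟩
    · refine CC.edge_odd (by rw [h6, h5]; exact h4) ?_
      rcases h7 with h7 | h7 | h7
      · exact Or.inr (Or.inl h7)
      · exact Or.inr (Or.inr h7)
      · exact Or.inl h7
    · refine CC.edge_even (by rw [h6, h5]; exact h4) ?_
      rcases h7 with h7 | h7 | h7
      · exact Or.inl h7
      · exact Or.inr (Or.inl h7)
      · exact Or.inr (Or.inr h7)
  · rw [List.nodup_iff_injective_getElem]
    intro i j hij
    simp only at hij
    rw [hg, hg] at hij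
    have h4 := CC.ph_inj (Vt_lv (poly_Vt h1 _)) (Vt_lv (poly_Vt h1 _)) hij
    have hi := i.2
    have hj := j.2
    rcases lt_trichotomy i.1 j.1 with h | h | h
    · exact absurd h4 (w_ne h1 (by omega) (by omega))
    · exact Fin.ext h
    · exact absurd h4.symm (w_ne h1 (by omega) (by omega))
  · rw [List.head?_eq_getElem?, List.getElem?_eq_getElem (by omega), hg]
    rfl
  · rw [List.getLast?_eq_getElem?, List.getElem?_eq_getElem (by omega), hg]
    rw [show L.length - 1 + 1 = m by omega, h1.clv]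
    rfl
  · intro q hq
    obtain ⟨v, hv, rfl⟩ := hmem q hq
    have h4 : (CC.ph r0).2 = 1 := by decide
    rcases hr.2 v hv with h5 | ⟨h5, _⟩ <;> omega
  · intro q hq hq1
    obtain ⟨v, hv, rfl⟩ := hmem q hq
    have h4 : (CC.ph r0).2 = 1 := by decide
    rcases hr.2 v hv with h5 | ⟨_, h5⟩
    · omega
    · exact h5

end TH

end HexObs
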