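import Pool.Agent.HexLoop.Wind

/-!
THETA, module H3 (R): rows of sites above and below a face inside a polygon.
-/

set_option autoImplicit false

namespace HexObs

namespace TH

open LP Finset

lemma lv_mod (v : Pt) : ((lv v : ℤ) : ZMod 3) = cl v := by
  unfold lv cl
  push_cast
  have : (2 : ZMod 3) = -1 := by decide
  rw [this]
  ring

/-- a vertex and a face have different levels -/
lemma lv_ne {v f : Pt} (hv : Vt v) (hf : Fc f) : lv v ≠ lv f := by
  intro h
  apply hv
  have h1 := lv_mod v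
  rw [h, lv_mod f] at h1
  exact h1.symm.trans hf

lemma vt_of_mem {E : Finset (Pt × Pt)} (hE : IsPoly E) {v : Pt} (hv : v ∈ VE E) : Vt v := by
  obtain ⟨q, hq, rfl⟩ := Finset.mem_image.1 hv
  exact (isPoly_de hE hq).2.1

/-- a vertex of the polygon above a face inside -/
theorem row_above {E : Finset (Pt × Pt)} (hE : IsPoly E) {f : Pt} (hf : Fc f) (h : Nw E f ≠ 0) :
    ∃ v ∈ VE E, lv f < lv v := by
  by_contra hcon
  push Not at hcon
  exact h (Nw_high hE fun v hv => lt_of_le_of_ne (hcon v hv) (lv_ne (vt_of_mem hE hv) hf))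

/-- a vertex of the polygon below a face inside -/
theorem row_below {E : Finset (Pt × Pt)} {g : Pt} (h : Nw E g ≠ 0) : ∃ w ∈ VE E, lv w < lv g := by
  by_contra hcon
  push Not at hcon
  exact h (Nw_low hcon)

theorem rows_ge {E : Finset (Pt × Pt)} (hE : IsPoly E) {f g : Pt} (hf : Fc f) (_hg : Fc g) (h1 : Nw E f ≠ 0)
    (h2 : Nw E g ≠ 0) : ∃ v ∈ VE E, ∃ w ∈ VE E, lv f < lv v ∧ lv w < lv g := by
  obtain ⟨v, hv, hv1⟩ := row_above hE hf h1
  obtain ⟨w, hw, hw1⟩ := row_below h2
  exact ⟨v, hv, w, hw, hv1, hw1⟩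

end TH

end HexObs
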