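import Pool.Agent.TH.Base
import Pool.Agent.TH.Rows
import Pool.Agent.TH.LinkA

/-!
THETA, module H3: the sums over the polygons around the face `f0` and the polygons modulo translations.
-/

set_option autoImplicit false

namespace HexObs

namespace TH

open LP Finset ENNReal

lemma Fc_f0 : Fc f0 := by
  show cl f0 = 1
  decide

lemma TE_rE (z : Pt) (E : Finset (Pt × Pt)) : TE z (rE E) = rE (TE z E) := by
  unfold TE rE
  rw [Finset.image_image, Finset.image_image]
  apply Finset.image_congr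
  intro p _
  exact (tr_rv z p).symm

/-- orientation -/
noncomputable def oE (σ : Bool) (E : Finset (Pt × Pt)) : Finset (Pt × Pt) := if σ then E else rE E

lemma oE_oE (σ : Bool) (E : Finset (Pt × Pt)) : oE σ (oE σ E) = E := by
  unfold oE
  cases σ
  · simp [rE_rE]
  · simp

lemma TE_oE (z : Pt) (σ : Bool) (E : Finset (Pt × Pt)) : TE z (oE σ E) = oE σ (TE z E) := by
  unfold oE
  cases σ
  · simp [TE_rE]
  · simp

lemma card_oE (σ : Bool) (E : Finset (Pt × Pt)) : (oE σ E).card = E.card := by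
  unfold oE
  cases σ
  · simp [card_rE]
  · simp

lemma isPoly_oE (σ : Bool) {E : Finset (Pt × Pt)} (hE : IsPoly E) : IsPoly (oE σ E) := by
  unfold oE
  cases σ
  · simpa using isPoly_rE hE
  · simpa using hE

lemma VE_oE (σ : Bool) {E : Finset (Pt × Pt)} (hE : IsPoly E) : VE (oE σ E) = VE E := by
  unfold oE
  cases σ
  · simpa using VE_rE hE
  · simp

lemma TE_add (z z' : Pt) (E : Finset (Pt × Pt)) : TE z' (TE z E) = TE (z + z') E := by
  unfold TE
  rw [Finset.image_image]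
  apply Finset.image_congr
  intro p _
  show Te z' (Te z p) = Te (z + z') p
  unfold Te
  simp only [add_assoc]

/-- the normal form of a polygon -/
theorem exists_nf {E : Finset (Pt × Pt)} (hE : IsPoly E) : ∃ (b : Pt) (σ : Bool) (L : List (ℤ × ℤ)),
    IsRoot E b ∧ cl (r0 - b) = 0 ∧ RL (TE (r0 - b) (oE σ E)) L := by
  obtain ⟨b, hb⟩ := exists_root hE
  obtain ⟨h0, h⟩ := root_edges hE hb
  have hz : cl (r0 - b) = 0 := by
    have h1 : (((r0 - b).1 - (r0 - b).2 : ℤ) : ZMod 3) = ((0 : ℤ) : ZMod 3) := by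
      rw [ZMod.intCast_eq_intCast_iff]
      show ((r0 - b).1 - (r0 - b).2) % 3 = 0 % 3
      unfold nn at h0
      unfold r0
      simp only [Prod.fst_sub, Prod.snd_sub]
      omega
    have h2 : cl (r0 - b) = (((r0 - b).1 - (r0 - b).2 : ℤ) : ZMod 3) := by
      unfold cl
      push_cast
      rfl
    rw [h2, h1, Int.cast_zero]
  have key : ∃ σ : Bool, (b, ((-1, 0) : Pt)) ∈ oE σ E := by
    rcases h with h | h
    · exact ⟨true, by simpa [oE] using h.1⟩
    · refine ⟨false, ?_⟩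
      have : (b, ((-1, 0) : Pt)) ∈ rE E := by
        rw [mem_rE]
        exact h.2
      simpa [oE] using this
  obtain ⟨σ, hσ⟩ := key
  have h1 : (r0, ((-1, 0) : Pt)) ∈ TE (r0 - b) (oE σ E) := by
    refine Finset.mem_image.2 ⟨_, hσ, ?_⟩
    unfold Te
    simp
  obtain ⟨L, hL⟩ := exists_RL (isPoly_TE hz (isPoly_oE σ hE)) h1
  exact ⟨b, σ, L, hb, hz, hL⟩

/-- the root of the normal form -/
theorem root_nf {E : Finset (Pt × Pt)} (hE : IsPoly E) {b : Pt} (hb : IsRoot E b) (hz : cl (r0 - b) = 0) (σ : Bool) :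
    IsRoot (TE (r0 - b) (oE σ E)) r0 := by
  have hV : VE (TE (r0 - b) (oE σ E)) = Ti (r0 - b) (VE E) := by rw [VE_TE, VE_oE σ hE]
  refine ⟨?_, fun v hv => ?_⟩
  · rw [hV, mem_Ti]
    have e : r0 - (r0 - b) = b := by abel
    rw [e]
    exact hb.1
  · rw [hV, mem_Ti] at hv
    have h1 := hb.2 _ hv
    have hc : ((r0 - b).1 - (r0 - b).2) % 3 = 0 := by
      have h2 : cl (r0 - b) = (((r0 - b).1 - (r0 - b).2 : ℤ) : ZMod 3) := by
        unfold cl
        push_cast
        rfl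
      rw [h2, ← Int.cast_zero, ZMod.intCast_eq_intCast_iff] at hz
      exact hz
    unfold CC.ph r0 at *
    simp only [Prod.fst_sub, Prod.snd_sub] at *
    omega

/-- a rooted polygon with a row of faces -/
theorem tall_nf {E : Finset (Pt × Pt)} (hE : IsPoly E) (h0 : Nw E f0 ≠ 0) {b : Pt} (hb : IsRoot E b)
    (hz : cl (r0 - b) = 0) (σ : Bool) {L : List (ℤ × ℤ)} (hL : RL (TE (r0 - b) (oE σ E)) L) {j : ℕ}
    (hj : j ≤ ro 0 E) : ∃ p ∈ L, (j : ℤ) < p.2 := by
  have hf0 : f0 ∈ Fi E := (mem_Fi hE).2 ⟨Fc_f0, h0⟩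
  obtain ⟨p, hp, hs⟩ := Finset.exists_mem_eq_sup (Fi E ×ˢ Fi E) ⟨(f0, f0), Finset.mem_product.2 ⟨hf0, hf0⟩⟩
    (fun p => ((ga 0 p.1 - ga 0 p.2) / 3).toNat)
  unfold ro at hj
  rw [hs] at hj
  obtain ⟨hp1, hp2⟩ := Finset.mem_product.1 hp
  rw [mem_Fi hE] at hp1 hp2
  have e1 : ∀ v : Pt, ga 0 v = lv v := fun v => rfl
  rw [e1, e1] at hj
  obtain ⟨v, hv, w, hw, h1, h2⟩ := rows_ge (f := p.1) (g := p.2) hE hp1.1 hp2.1 hp1.2 hp2.2
  obtain ⟨v', hv', w', hw', h1', h2'⟩ := rows_ge (f := p.1) (g := p.1) hE hp1.1 hp1.1 hp1.2 hp1.2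
  have hV : VE (TE (r0 - b) (oE σ E)) = Ti (r0 - b) (VE E) := by rw [VE_TE, VE_oE σ hE]
  have hm : v + (r0 - b) ∈ VE (TE (r0 - b) (oE σ E)) := by
    rw [hV, mem_Ti, add_sub_cancel_right]
    exact hv
  refine ⟨_, RL_mem hL hm, ?_⟩
  have h3 := hb.2 w hw
  have h3' := hb.2 w' hw'
  have hc : ((r0 - b).1 - (r0 - b).2) % 3 = 0 := by
    have h2 : cl (r0 - b) = (((r0 - b).1 - (r0 - b).2 : ℤ) : ZMod 3) := by
      unfold cl
      push_cast
      rfl
    rw [h2, ← Int.cast_zero, ZMod.intCast_eq_intCast_iff] at hz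
    exact hz
  have hf1 : (p.1.1 - p.1.2) % 3 = 1 := by
    have h4 : Fc p.1 := hp1.1
    unfold Fc at h4
    have h2 : cl p.1 = ((p.1.1 - p.1.2 : ℤ) : ZMod 3) := by
      unfold cl
      push_cast
      rfl
    rw [h2, ← Int.cast_one, ZMod.intCast_eq_intCast_iff] at h4
    exact h4
  have hf2 : (p.2.1 - p.2.2) % 3 = 1 := by
    have h4 : Fc p.2 := hp2.1
    unfold Fc at h4
    have h2 : cl p.2 = ((p.2.1 - p.2.2 : ℤ) : ZMod 3) := by
      unfold cl
      push_cast
      rfl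
    rw [h2, ← Int.cast_one, ZMod.intCast_eq_intCast_iff] at h4
    exact h4
  unfold CC.ph r0 at *
  unfold lv at *
  simp only [Prod.fst_sub, Prod.snd_sub, Prod.fst_add, Prod.snd_add] at *
  omega

lemma Fi_TE {E : Finset (Pt × Pt)} (hE : IsPoly E) {z : Pt} (hz : cl z = 0) : (Fi (TE z E)).card = (Fi E).card := by
  have h : Fi (TE z E) = (Fi E).image (· + z) := by
    ext g
    rw [mem_Fi (isPoly_TE hz hE), Finset.mem_image]
    constructor
    · rintro ⟨h1, h2⟩
      refine ⟨g - z, ?_, sub_add_cancel g z⟩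
      rw [mem_Fi hE]
      constructor
      · rw [← tr_Fc hz, sub_add_cancel]
        exact h1
      · rw [← Nw_TE z, sub_add_cancel]
        exact h2
    · rintro ⟨f, hf, rfl⟩
      rw [mem_Fi hE] at hf
      refine ⟨(tr_Fc hz).2 hf.1, ?_⟩
      rw [Nw_TE]
      exact hf.2
  rw [h, Finset.card_image_of_injective _ (add_left_injective z)]

/-- weight of the tall lists -/
noncomputable def Wj (j : ℕ) (L : List (ℤ × ℤ)) : ℝ≥0∞ := by
  classical
  exact if HexPolygon.Polygon L ∧ ∃ p ∈ L, (j : ℤ) < p.2 then HexPolygon.wt L else 0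

theorem Wj_sum (j : ℕ) : ∑' L, Wj j L ≤ HexPolygon.Sall - HexPolygon.S j := by
  classical
  have hfin : HexPolygon.S j ≠ ∞ := by
    cases j with
    | zero =>
      have : HexPolygon.S 0 = 0 := by
        unfold HexPolygon.S
        rw [ENNReal.tsum_eq_zero]
        rintro ⟨L, hL, h2⟩
        exfalso
        have h3 : ((0, 1) : ℤ × ℤ) ∈ L := List.mem_of_mem_head? (by rw [hL.2.2.2.1]; rfl)
        have := h2 _ h3
        norm_num at this
      rw [this]
      exact zero_ne_top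
    | succ j => exact HexPolygon.S_ne_top j
  apply ENNReal.le_sub_of_add_le_left hfin
  unfold HexPolygon.S HexPolygon.Sall
  have e1 : ∀ P : List (ℤ × ℤ) → Prop, ∑' L : {L // P L}, HexPolygon.wt L.1 =
      ∑' L, ({L | P L} : Set (List (ℤ × ℤ))).indicator HexPolygon.wt L := fun P => tsum_subtype {L | P L} HexPolygon.wt
  rw [e1, e1, ← ENNReal.tsum_add]
  apply ENNReal.tsum_le_tsum
  intro L
  unfold Wj
  simp only [Set.indicator, Set.mem_setOf_eq]
  by_cases hP : HexPolygon.Polygon L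
  · by_cases ht : ∃ p ∈ L, (j : ℤ) < p.2
    · have h1 : ¬ (HexPolygon.Polygon L ∧ ∀ p ∈ L, p.2 ≤ (j : ℤ)) := by
        rintro ⟨_, h2⟩
        obtain ⟨p, hp, h3⟩ := ht
        have := h2 p hp
        omega
      rw [if_neg h1, if_pos ⟨hP, ht⟩, if_pos hP, zero_add]
    · rw [if_neg (fun h : HexPolygon.Polygon L ∧ ∃ p ∈ L, (j : ℤ) < p.2 => ht h.2), add_zero, if_pos hP]
      split_ifs
      · exact le_rfl
      · exact zero_le
  · rw [if_neg (fun h : HexPolygon.Polygon L ∧ ∀ p ∈ L, p.2 ≤ (j : ℤ) => hP h.1),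
      if_neg (fun h : HexPolygon.Polygon L ∧ ∃ p ∈ L, (j : ℤ) < p.2 => hP h.1), if_neg hP, zero_add]

/-- H3 -/
theorem nu_tail (j : ℕ) : nu (fun E => if j ≤ ro 0 E then 1 else 0) ≤ 2 * (HexPolygon.Sall - HexPolygon.S j) := by
  classical
  have key : ∀ E : {E : Finset (Pt × Pt) // IsPoly E ∧ Nw E f0 ≠ 0}, ∃ (b : Pt) (σ : Bool) (L : List (ℤ × ℤ)),
      IsRoot E.1 b ∧ cl (r0 - b) = 0 ∧ RL (TE (r0 - b) (oE σ E.1)) L := fun E => exists_nf E.2.1
  choose b σ L hb hz hL using key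
  -- each fibre
  have hfib : ∀ k : Bool × List (ℤ × ℤ), ∑' E : {E // (σ E, L E) = k},
      (if j ≤ ro 0 E.1.1 then 1 else 0) * ENNReal.ofReal (xc ^ E.1.1.card) / ((Fi E.1.1).card : ℝ≥0∞) ≤ Wj j k.2 := by
    intro k
    rcases isEmpty_or_nonempty {E // (σ E, L E) = k} with he | ⟨⟨E0, hE0⟩⟩
    · rw [tsum_empty]
      exact zero_le
    -- the translation
    have htr : ∀ E : {E // (σ E, L E) = k}, E.1.1 = TE (b E.1 - b E0) E0.1 ∧ cl (b E.1 - b E0) = 0 := by
      rintro ⟨E, hE⟩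
      have h1 := hL E
      have h2 := hL E0
      have e1 : σ E = σ E0 := by
        have := hE.trans hE0.symm
        exact (Prod.mk.inj this).1
      have e2 : L E = L E0 := by
        have := hE.trans hE0.symm
        exact (Prod.mk.inj this).2
      rw [e1, e2] at h1
      have h3 := RL_inj h1 h2
      rw [TE_oE, TE_oE] at h3
      have h4 : TE (r0 - b E) E.1 = TE (r0 - b E0) E0.1 := by
        have := congrArg (oE (σ E0)) h3
        rwa [oE_oE, oE_oE] at this
      constructor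
      · have h5 := congrArg (TE (-(r0 - b E))) h4
        rw [TE_TE, TE_add] at h5
        rw [h5]
        congr 1
        abel
      · have h5 : b E - b E0 = (r0 - b E0) + (-(r0 - b E)) := by abel
        show cl (b E - b E0) = 0
        rw [h5, cl_add, hz E0, zero_add]
        have h6 := hz E
        unfold cl at h6 ⊢
        simp only [Prod.fst_neg, Prod.snd_neg]
        push_cast at h6 ⊢
        linear_combination -h6
    have hc : ∀ E : {E // (σ E, L E) = k}, (Fi E.1.1).card = (Fi E0.1).card := fun E => by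
      rw [(htr E).1]
      exact Fi_TE E0.2.1 (htr E).2
    -- the face
    have hφ : ∀ E : {E // (σ E, L E) = k}, f0 - (b E.1 - b E0) ∈ Fi E0.1 := by
      intro E
      obtain ⟨h1, h2⟩ := htr E
      rw [mem_Fi E0.2.1]
      have h3 := E.1.2.2
      rw [h1] at h3
      constructor
      · rw [← tr_Fc h2, sub_add_cancel]
        exact Fc_f0
      · rw [← Nw_TE (b E.1 - b E0), sub_add_cancel]
        exact h3
    have hterm : ∀ E : {E // (σ E, L E) = k}, (if j ≤ ro 0 E.1.1 then 1 else 0) * ENNReal.ofReal (xc ^ E.1.1.card) /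
        ((Fi E.1.1).card : ℝ≥0∞) ≤ Wj j k.2 / ((Fi E0.1).card : ℝ≥0∞) := by
      intro E
      rw [hc E]
      apply ENNReal.div_le_div_right
      split_ifs with hj
      · have hk : L E.1 = k.2 := congrArg Prod.snd E.2
        have h1 := RL_Polygon (hL E.1) (root_nf E.1.2.1 (hb E.1) (hz E.1) (σ E.1))
        have h2 := tall_nf E.1.2.1 E.1.2.2 (hb E.1) (hz E.1) (σ E.1) (hL E.1) hj
        have h3 := RL_length (hL E.1)
        rw [card_TE, card_oE] at h3
        rw [hk] at h1 h2 h3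
        unfold Wj
        rw [if_pos ⟨h1, h2⟩, one_mul]
        unfold HexPolygon.wt
        rw [h3, HexPolygon.x_eq]
      · rw [zero_mul]
        exact zero_le
    have hinj : Function.Injective (fun E : {E // (σ E, L E) = k} =>
        (⟨f0 - (b E.1 - b E0), hφ E⟩ : {f // f ∈ Fi E0.1})) := by
      intro E E' h
      have h1 : f0 - (b E.1 - b E0) = f0 - (b E'.1 - b E0) := congrArg Subtype.val h
      have h2 : b E.1 - b E0 = b E'.1 - b E0 := sub_right_injective h1
      apply Subtype.ext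
      apply Subtype.ext
      rw [(htr E).1, (htr E').1, h2]
    calc ∑' E : {E // (σ E, L E) = k}, (if j ≤ ro 0 E.1.1 then 1 else 0) * ENNReal.ofReal (xc ^ E.1.1.card) /
        ((Fi E.1.1).card : ℝ≥0∞) ≤ ∑' _E : {E // (σ E, L E) = k}, Wj j k.2 / ((Fi E0.1).card : ℝ≥0∞) :=
          ENNReal.tsum_le_tsum hterm
      _ ≤ ∑' _f : {f // f ∈ Fi E0.1}, Wj j k.2 / ((Fi E0.1).card : ℝ≥0∞) :=
          ENNReal.tsum_comp_le_tsum_of_injective hinj (fun _ => Wj j k.2 / ((Fi E0.1).card : ℝ≥0∞))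
      _ = ((Fi E0.1).card : ℝ≥0∞) * (Wj j k.2 / ((Fi E0.1).card : ℝ≥0∞)) := by
          rw [tsum_fintype, Finset.sum_const, Finset.card_univ, Fintype.card_coe, nsmul_eq_mul]
      _ ≤ Wj j k.2 := ENNReal.mul_div_le
  unfold nu
  rw [← (Equiv.sigmaFiberEquiv (fun E : {E : Finset (Pt × Pt) // IsPoly E ∧ Nw E f0 ≠ 0} => (σ E, L E))).tsum_eq,
    ENNReal.tsum_sigma']
  refine (ENNReal.tsum_le_tsum hfib).trans ?_
  have e := ENNReal.tsum_prod (f := fun (_ : Bool) (L : List (ℤ × ℤ)) => Wj j L)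
  refine (le_of_eq e).trans ?_
  rw [tsum_fintype, Fintype.sum_bool, ← two_mul]
  exact mul_le_mul_right (Wj_sum j) 2

end TH

end HexObs
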