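import Pool.Agent.TH.Fin
import Pool.Agent.TH.Abel
import Pool.Agent.TH.Link
import Pool.Agent.CenC.Fin

/-!
THETA: the mean length of the bridges with every exponent a > 5 / 4 + 5 sqrt 3 / 36.
-/

set_option autoImplicit false

namespace HexObs

namespace TH

open LP Finset ENNReal

theorem nu_one_ne : nu (fun _ => 1) ≠ ∞ := by
  have h1 := nu_tail 0
  have e : nu (fun E => if 0 ≤ ro 0 E then 1 else 0) = nu (fun _ => 1) := by
    congr 1
  rw [e] at h1
  refine ne_top_of_le_ne_top ?_ (h1.trans (mul_le_mul_right tsub_le_self 2))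
  exact ENNReal.mul_ne_top (by norm_num) CenC.Sall_ne

theorem meanLen_main {a : ℝ} (ha : 5 / 4 + 5 * Real.sqrt 3 / 36 < a) : ∃ C : ℝ, 0 ≤ C ∧ T2.MeanLen a C := by
  have hs := Real.sqrt_nonneg 3
  exact meanLen_theta (c := 5 * Real.sqrt 3 / 108) (by positivity)
    (fun lam h => sum_sq_of nu_tail CenC.central h) nu_one_ne a (by linarith)

end TH

end HexObs
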