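import Mathlib

/-!
THETA, H1: lattice points of a hexagon.
-/

set_option autoImplicit false

namespace HexObs

namespace TH

open Finset

lemma sum_min : ∀ (n : ℕ) (α β : ℤ),
    4 * ∑ t ∈ range n, min (α + t) (β - t) ≤ 2 * n * (α + β) - (n : ℤ) ^ 2 + 1 := by
  intro n
  induction n using Nat.strong_induction_on with
  | _ n ih =>
    intro α β
    match n, ih with
    | 0, _ => simp
    | 1, _ =>
      simp
      omega
    | n + 2, ih =>
      have h1 := ih n (by omega) (α + 1) (β - 1)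
      rw [sum_range_succ, sum_range_succ']
      have h2 : ∑ k ∈ range n, min (α + ((k + 1 : ℕ) : ℤ)) (β - ((k + 1 : ℕ) : ℤ)) =
          ∑ t ∈ range n, min (α + 1 + (t : ℤ)) (β - 1 - t) := by
        refine sum_congr rfl fun k _ => ?_
        push_cast
        congr 1 <;> ring
      rw [h2]
      have h3 : min (α + ((0 : ℕ) : ℤ)) (β - ((0 : ℕ) : ℤ)) ≤ α := by
        simp
      have h4 : min (α + ((n + 1 : ℕ) : ℤ)) (β - ((n + 1 : ℕ) : ℤ)) ≤ β - (n + 1) := by
        refine (min_le_right _ _).trans ?_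
        push_cast
        exact le_rfl
      push_cast at h1 h3 h4 ⊢
      nlinarith

theorem count {F : Finset (ℤ × ℤ)} {u v w : ℕ} (h1 : ∀ p ∈ F, ∀ q ∈ F, p.1 - q.1 < u) (h2 : ∀ p ∈ F, ∀ q ∈ F, p.2 - q.2 < v)
    (h3 : ∀ p ∈ F, ∀ q ∈ F, (p.1 + p.2) - (q.1 + q.2) < w) : 4 * F.card ≤ u ^ 2 + v ^ 2 + w ^ 2 + 1 := by
  rcases F.eq_empty_or_nonempty with rfl | hF
  · simp
  obtain ⟨pl, hpl, hpl2⟩ := F.exists_min_image (fun p => p.1) hF
  obtain ⟨pr, hpr, hpr2⟩ := F.exists_max_image (fun p => p.1) hF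
  obtain ⟨pb, hpb, hpb2⟩ := F.exists_min_image (fun p => p.2) hF
  obtain ⟨ps, hps, hps2⟩ := F.exists_min_image (fun p => p.1 + p.2) hF
  obtain ⟨n, hn⟩ : ∃ n : ℕ, pr.1 - pl.1 + 1 = n := ⟨(pr.1 - pl.1 + 1).toNat, by
    have := hpl2 pr hpr
    try simp only at this
    omega⟩
  have hnu : n ≤ u := by
    have := h1 pr hpr pl hpl
    omega
  obtain ⟨α, hα⟩ : ∃ α : ℤ, α = v + pb.2 - (ps.1 + ps.2) + pl.1 := ⟨_, rfl⟩
  obtain ⟨β, hβ⟩ : ∃ β : ℤ, β = w + (ps.1 + ps.2) - pb.2 - pl.1 := ⟨_, rfl⟩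
  have hα1 : 1 ≤ α := by
    have a1 := h2 pl hpl pb hpb
    have a2 := hps2 pl hpl
    try simp only at a2
    omega
  have hβ1 : 1 ≤ β - (n - 1) := by
    have a1 := h3 pr hpr ps hps
    have a2 := hpb2 pr hpr
    try simp only at a2
    omega
  -- the rows
  have hmaps : ∀ p ∈ F, (p.1 - pl.1).toNat ∈ range n := by
    intro p hp
    rw [mem_range]
    have a1 := hpl2 p hp
    have a2 := hpr2 p hp
    try simp only at a1 a2
    omega
  have hfib : ∀ t ∈ range n, ((F.filter fun p => (p.1 - pl.1).toNat = t).card : ℤ) ≤ min (α + t) (β - t) := by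
    intro t ht
    rw [mem_range] at ht
    have hmin : (0 : ℤ) ≤ min (α + t) (β - t) := by
      rw [le_min_iff]
      constructor <;> omega
    have hsub : (F.filter fun p => (p.1 - pl.1).toNat = t) ⊆
        (Ico (max pb.2 (ps.1 + ps.2 - (pl.1 + t))) (min (pb.2 + v) (ps.1 + ps.2 + w - (pl.1 + t)))).image
          (fun y => (pl.1 + (t : ℤ), y)) := by
      intro p hp
      rw [mem_filter] at hp
      rw [mem_image]
      have a1 := hpl2 p hp.1
      have a2 := hpb2 p hp.1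
      have a3 := hps2 p hp.1
      have a4 := h2 p hp.1 pb hpb
      have a5 := h3 p hp.1 ps hps
      try simp only at a1 a2 a3
      have a6 := hp.2
      refine ⟨p.2, ?_, ?_⟩
      · rw [mem_Ico, max_le_iff, lt_min_iff]
        refine ⟨⟨?_, ?_⟩, ?_, ?_⟩ <;> omega
      · ext <;> (try simp only) <;> omega
    have h5 := (card_le_card hsub).trans card_image_le
    rw [Int.card_Ico] at h5
    omega
  have hcard : (F.card : ℤ) ≤ ∑ t ∈ range n, min (α + t) (β - t) := by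
    rw [card_eq_sum_card_fiberwise hmaps]
    push_cast
    exact sum_le_sum hfib
  have h6 := sum_min n α β
  have h7 : α + β = v + w := by omega
  rw [h7] at h6
  have h8 : (n : ℤ) ≤ u := by exact_mod_cast hnu
  have h9 : 4 * (F.card : ℤ) ≤ (u : ℤ) ^ 2 + (v : ℤ) ^ 2 + (w : ℤ) ^ 2 + 1 := by
    nlinarith [sq_nonneg ((n : ℤ) - v), sq_nonneg ((n : ℤ) - w), Int.natCast_nonneg n]
  exact_mod_cast h9

end TH

end HexObs
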