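import Pool.Agent.TH.Defs
import Pool.Agent.TH.Cnt

/-!
THETA, H1: the number of the faces inside a polygon.
-/

set_option autoImplicit false

namespace HexObs

namespace TH

open LP Finset ENNReal

lemma Fc_of_mem {E : Finset (Pt × Pt)} {g : Pt} (hg : g ∈ Fi E) : Fc g := by
  unfold Fi at hg
  split_ifs at hg with h
  · rw [Set.Finite.mem_toFinset] at hg
    exact hg.1
  · exact absurd hg (notMem_empty _)

lemma Fc_mod1 {f : Pt} (hf : Fc f) : (f.1 - f.2) % 3 = 1 := by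
  have h := ZMod.intCast_eq_intCast_iff (f.1 - f.2) 1 3
  unfold Fc cl at hf
  rw [Int.cast_one] at h
  have h4 := h.1 hf
  unfold Int.ModEq at h4
  push_cast at h4
  omega

lemma ga0 (v : Pt) : ga 0 v = v.1 + 2 * v.2 := rfl

lemma ga1 (v : Pt) : ga 1 v = v.1 - v.2 := rfl

lemma ga2 (v : Pt) : ga 2 v = 2 * v.1 + v.2 := rfl

lemma lt_ro (i : Fin 3) {E : Finset (Pt × Pt)} {p q : Pt} (hp : p ∈ Fi E) (hq : q ∈ Fi E) :
    (ga i p - ga i q) / 3 < ro i E := by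
  have h := Finset.le_sup (f := fun p : Pt × Pt => ((ga i p.1 - ga i p.2) / 3).toNat)
    (Finset.mem_product.2 ⟨hp, hq⟩ : (p, q) ∈ Fi E ×ˢ Fi E)
  simp only at h
  unfold ro
  push_cast
  omega

/-- the coordinates of a face -/
def fab (f : Pt) : ℤ × ℤ := ((ga 0 f - 1) / 3, (ga 1 f - 1) / 3)

theorem area_le' (E : Finset (Pt × Pt)) : 4 * (Fi E).card ≤ ro 0 E ^ 2 + ro 1 E ^ 2 + ro 2 E ^ 2 + 1 := by
  have hinj : Set.InjOn fab (Fi E : Set Pt) := by
    intro p hp q hq h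
    have h1 := Fc_mod1 (Fc_of_mem hp)
    have h2 := Fc_mod1 (Fc_of_mem hq)
    unfold fab at h
    rw [Prod.mk.injEq, ga0, ga0, ga1, ga1] at h
    ext <;> omega
  rw [← card_image_of_injOn hinj]
  refine count ?_ ?_ ?_
  all_goals
    intro x hx y hy
    rw [mem_image] at hx hy
    obtain ⟨p, hp, rfl⟩ := hx
    obtain ⟨q, hq, rfl⟩ := hy
    have h1 := Fc_mod1 (Fc_of_mem hp)
    have h2 := Fc_mod1 (Fc_of_mem hq)
    have g0 := lt_ro 0 hp hq
    have g1 := lt_ro 1 hp hq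
    have g2 := lt_ro 2 hp hq
    rw [ga0, ga0] at g0
    rw [ga1, ga1] at g1
    rw [ga2, ga2] at g2
    unfold fab
    simp only [ga0, ga1]
    omega

theorem area_le {E : Finset (Pt × Pt)} (_ : IsPoly E) :
    4 * (Fi E).card ≤ ro 0 E ^ 2 + ro 1 E ^ 2 + ro 2 E ^ 2 + 1 := area_le' E

theorem ro2_le' (E : Finset (Pt × Pt)) : ro 2 E ≤ ro 0 E + ro 1 E := by
  have h : (Fi E ×ˢ Fi E).sup (fun p => ((ga 2 p.1 - ga 2 p.2) / 3).toNat) ≤ ro 0 E + ro 1 E - 1 := by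
    refine Finset.sup_le fun x hx => ?_
    rw [mem_product] at hx
    obtain ⟨hp, hq⟩ := hx
    have h1 := Fc_mod1 (Fc_of_mem hp)
    have h2 := Fc_mod1 (Fc_of_mem hq)
    have g0 := lt_ro 0 hp hq
    have g1 := lt_ro 1 hp hq
    rw [ga0, ga0] at g0
    rw [ga1, ga1] at g1
    rw [ga2, ga2]
    have e0 : 1 ≤ ro 0 E := by unfold ro; omega
    omega
  have e0 : 1 ≤ ro 0 E := by unfold ro; omega
  have e1 : ro 2 E = (Fi E ×ˢ Fi E).sup (fun p => ((ga 2 p.1 - ga 2 p.2) / 3).toNat) + 1 := rfl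
  omega

theorem ro2_le {E : Finset (Pt × Pt)} (_ : IsPoly E) : ro 2 E ≤ ro 0 E + ro 1 E := ro2_le' E

end TH

end HexObs
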