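import Pool.Agent.NUF.NF
import Pool.Agent.HexLoop.DefsD

/-!
THETA, module H6, part 1: the gas of nested polygons is at most exp of the weight of the polygons around the face.
-/

set_option autoImplicit false

namespace HexObs

namespace TH

open LP Finset

theorem LL_pf (Ω : Finset Pt) (f : Pt) : LL Ω f = ∑ E ∈ pf Ω f, xc ^ E.card := by
  classical
  unfold LL pf
  rfl

/-- the domains inside nested polygons. -/
lemma inn_lt {Ω : Finset Pt} {f : Pt} {E E' : Finset (Pt × Pt)} (hE : E ∈ pf Ω f) (hE' : E' ∈ pf (inn Ω E) f) :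
    E' ∈ pf Ω f ∧ (inn Ω E').card < (inn Ω E).card := by
  have hsub : inn Ω E ⊆ Ω := fun v hv => (mem_inn.1 hv).1
  refine ⟨pf_mono hsub f hE', ?_⟩
  obtain ⟨h1, h2⟩ := mem_polys.1 (mem_pf.1 hE').1
  have hP := (mem_polys.1 (mem_pf.1 hE).1).1
  have e : inn Ω E' = inn (inn Ω E) E' := by
    ext v
    rw [mem_inn, mem_inn, mem_inn]
    constructor
    · rintro ⟨a, b⟩
      exact ⟨⟨a, nested hP h1 (fun w hw => (mem_inn.1 (h2 hw)).2) b⟩, b⟩
    · rintro ⟨⟨a, _⟩, b⟩
      exact ⟨a, b⟩
  rw [e]
  exact inn_card (mem_pf.1 hE').1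

theorem NF_le_exp (Ω : Finset Pt) (f : Pt) : NF (2 : ℝ) Ω f ≤ Real.exp (LL Ω f) := by
  classical
  have hx := xc_pos
  apply pf_ind (P := fun Ω => NF (2 : ℝ) Ω f ≤ Real.exp (LL Ω f)) (f := f) _ Ω
  intro Ω ih
  obtain ⟨n, hn⟩ : ∃ n : Finset (Pt × Pt) → ℕ, n = fun E => (inn Ω E).card := ⟨_, rfl⟩
  obtain ⟨a, ha⟩ : ∃ a : ℕ → ℝ, a = fun k => ∑ E ∈ (pf Ω f).filter (fun E => n E < k), xc ^ E.card := ⟨_, rfl⟩
  have h1 : ∀ E ∈ pf Ω f, NF (2 : ℝ) (inn Ω E) f ≤ Real.exp (a (n E)) := by
    intro E hE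
    refine (ih E hE).trans (Real.exp_le_exp.2 ?_)
    rw [LL_pf, ha]
    apply Finset.sum_le_sum_of_subset_of_nonneg
    · intro E' hE'
      have h2 := inn_lt hE hE'
      rw [Finset.mem_filter, hn]
      exact h2
    · intro _ _ _
      positivity
  have key : ∀ k : ℕ, 1 + ∑ E ∈ (pf Ω f).filter (fun E => n E < k), xc ^ E.card * Real.exp (a (n E)) ≤
      Real.exp (a k) := by
    intro k
    induction k with
    | zero =>
      have e0 : (pf Ω f).filter (fun E => n E < 0) = ∅ := by
        rw [Finset.filter_eq_empty_iff]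
        intro E _
        omega
      have e1 : a 0 = 0 := by
        rw [ha]
        simp only
        rw [e0, Finset.sum_empty]
      rw [e0, Finset.sum_empty, e1, Real.exp_zero, add_zero]
    | succ k ihk =>
      have e0 : (pf Ω f).filter (fun E => n E < k + 1) =
          (pf Ω f).filter (fun E => n E < k) ∪ (pf Ω f).filter (fun E => n E = k) := by
        rw [← Finset.filter_or]
        apply Finset.filter_congr
        intro E _
        omega
      have hd : Disjoint ((pf Ω f).filter (fun E => n E < k)) ((pf Ω f).filter (fun E => n E = k)) := by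
        rw [Finset.disjoint_filter]
        intro E _ h1 h2
        omega
      have e1 : a (k + 1) = a k + ∑ E ∈ (pf Ω f).filter (fun E => n E = k), xc ^ E.card := by
        rw [ha]
        simp only
        rw [e0, Finset.sum_union hd]
      have e2 : ∑ E ∈ (pf Ω f).filter (fun E => n E = k), xc ^ E.card * Real.exp (a (n E)) =
          (∑ E ∈ (pf Ω f).filter (fun E => n E = k), xc ^ E.card) * Real.exp (a k) := by
        rw [Finset.sum_mul]
        apply Finset.sum_congr rfl
        intro E hE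
        rw [(Finset.mem_filter.1 hE).2]
      rw [e0, Finset.sum_union hd, e2, e1, Real.exp_add]
      have h3 := Real.add_one_le_exp (∑ E ∈ (pf Ω f).filter (fun E => n E = k), xc ^ E.card)
      have h4 := Real.exp_pos (a k)
      nlinarith
  have h2 := key Ω.card
  have e3 : (pf Ω f).filter (fun E => n E < Ω.card) = pf Ω f := by
    rw [Finset.filter_eq_self]
    intro E hE
    rw [hn]
    exact inn_card (mem_pf.1 hE).1
  have e4 : a Ω.card = LL Ω f := by
    rw [ha, LL_pf]
    simp only
    rw [e3]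
  rw [e3, e4] at h2
  rw [NF_rec]
  refine le_trans (add_le_add_right (Finset.sum_le_sum fun E hE => ?_) 1) h2
  rw [smul_eq_mul]
  have h5 := h1 E hE
  calc xc ^ E.card / 2 * (2 * NF (2 : ℝ) (inn Ω E) f) = xc ^ E.card * NF (2 : ℝ) (inn Ω E) f := by ring
    _ ≤ xc ^ E.card * Real.exp (a (n E)) := by gcongr

end TH

end HexObs
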