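import Pool.Agent.TH.Defs
import Pool.Agent.HexLoop.Wind

/-!
# The set of the faces inside a polygon is finite
-/

set_option autoImplicit false

namespace HexObs

namespace TH

open LP Finset ENNReal

theorem fi_bounds {E : Finset (Pt × Pt)} (hE : IsPoly E) {g : Pt} (hg : g ∈ fi E) :
    (∃ v ∈ VE E, lv v < lv g) ∧ (∃ v ∈ VE E, lv g ≤ lv v) ∧ (∃ v ∈ VE E, nn v ≤ nn g) ∧
      (∃ v ∈ VE E, nn g ≤ nn v) := by
  refine ⟨?_, ?_, ?_, ?_⟩
  · by_contra h
    push Not at h
    exact hg.2 (Nw_low h)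
  · by_contra h
    push Not at h
    exact hg.2 (Nw_high hE h)
  · by_contra h
    push Not at h
    exact hg.2 (Nw_left hE h)
  · by_contra h
    push Not at h
    exact hg.2 (Nw_right hE h)

theorem fi_finite {E : Finset (Pt × Pt)} (hE : IsPoly E) : (fi E).Finite := by
  set B : ℤ := ∑ v ∈ VE E, (|lv v| + |nn v|) with hB
  have hle : ∀ v ∈ VE E, |lv v| + |nn v| ≤ B := fun v hv =>
    Finset.single_le_sum (f := fun v => |lv v| + |nn v|) (fun w _ => by positivity) hv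
  refine Set.Finite.subset (((Finset.Icc (-(3 * B)) (3 * B)) ×ˢ (Finset.Icc (-(3 * B)) (3 * B))).finite_toSet)
    fun g hg => ?_
  obtain ⟨⟨a, ha, h1⟩, ⟨b, hb, h2⟩, ⟨c, hc, h3⟩, ⟨d, hd, h4⟩⟩ := fi_bounds hE hg
  have e1 := hle a ha
  have e2 := hle b hb
  have e3 := hle c hc
  have e4 := hle d hd
  have k1 := neg_abs_le (lv a)
  have k2 := le_abs_self (lv b)
  have k3 := neg_abs_le (nn c)
  have k4 := le_abs_self (nn d)
  have p1 := abs_nonneg (lv a)
  have p2 := abs_nonneg (nn a)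
  have p3 := abs_nonneg (lv b)
  have p4 := abs_nonneg (nn b)
  have p5 := abs_nonneg (lv c)
  have p6 := abs_nonneg (nn c)
  have p7 := abs_nonneg (lv d)
  have p8 := abs_nonneg (nn d)
  have q1 : -B ≤ lv g := by linarith
  have q2 : lv g ≤ B := by linarith
  have q3 : -B ≤ nn g := by linarith
  have q4 : nn g ≤ B := by linarith
  unfold lv at q1 q2
  unfold nn at q3 q4
  simp only [Finset.coe_product, Finset.coe_Icc, Set.mem_prod, Set.mem_Icc]
  refine ⟨⟨?_, ?_⟩, ?_, ?_⟩ <;> linarith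

theorem mem_Fi {E : Finset (Pt × Pt)} (hE : IsPoly E) {g : Pt} : g ∈ Fi E ↔ Fc g ∧ Nw E g ≠ 0 := by
  have h : Fi E = (fi_finite hE).toFinset := by
    unfold Fi
    rw [dif_pos (fi_finite hE)]
  rw [h, Set.Finite.mem_toFinset]
  rfl

end TH

end HexObs
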