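import Pool.Agent.TH.RotB
import Pool.Agent.TH.Base

/-!
THETA, module H2: the sums `nu` are invariant under the rotation by 60 degrees around f0.
-/

set_option autoImplicit false

namespace HexObs

namespace TH

open LP Finset ENNReal

theorem Fi_RoE {E : Finset (Pt × Pt)} (hE : IsPoly E) : Fi (RoE E) = (Fi E).image Ro := by
  ext g
  rw [mem_Fi (isPoly_RoE hE), Finset.mem_image]
  constructor
  · rintro ⟨h1, h2⟩
    have e : Ro (Ro (Ro (Ro (Ro (Ro g))))) = g := Ro6 g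
    rw [← e] at h1 h2
    rw [Ro_Fc] at h1
    rw [Nw_RoE hE h1] at h2
    exact ⟨_, (mem_Fi hE).2 ⟨h1, h2⟩, e⟩
  · rintro ⟨h, hh, rfl⟩
    obtain ⟨h1, h2⟩ := (mem_Fi hE).1 hh
    exact ⟨Ro_Fc.2 h1, by rw [Nw_RoE hE h1]; exact h2⟩

theorem card_Fi_RoE {E : Finset (Pt × Pt)} (hE : IsPoly E) : (Fi (RoE E)).card = (Fi E).card := by
  rw [Fi_RoE hE]
  exact Finset.card_image_of_injective _ Ro_inj

theorem mem_Fi_RoE {E : Finset (Pt × Pt)} (hE : IsPoly E) {g : Pt} : Ro g ∈ Fi (RoE E) ↔ g ∈ Fi E := by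
  rw [Fi_RoE hE, Finset.mem_image]
  constructor
  · rintro ⟨h, hh, e⟩
    rwa [← Ro_inj e]
  · intro h
    exact ⟨_, h, rfl⟩

theorem ro_le_of {E E' : Finset (Pt × Pt)} {i j : Fin 3}
    (h : ∀ p ∈ Fi E', ∀ q ∈ Fi E', ∃ p' ∈ Fi E, ∃ q' ∈ Fi E, ga i p - ga i q = ga j p' - ga j q') :
    ro i E' ≤ ro j E := by
  unfold ro
  refine Nat.add_le_add_right (Finset.sup_le fun x hx => ?_) 1
  obtain ⟨h1, h2⟩ := Finset.mem_product.1 hx
  obtain ⟨p', hp', q', hq', e⟩ := h _ h1 _ h2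
  rw [e]
  exact Finset.le_sup (f := fun p : Pt × Pt => ((ga j p.1 - ga j p.2) / 3).toNat)
    (b := (p', q')) (Finset.mem_product.2 ⟨hp', hq'⟩)

lemma ga0_Ro (v : Pt) : ga 0 (Ro v) = ga 2 v - 1 := by
  rw [Ro_eq]
  simp [ga]
  ring

lemma ga1_Ro (v : Pt) : ga 1 (Ro v) = 2 - ga 0 v := by
  rw [Ro_eq]
  simp [ga]
  ring

lemma ga2_Ro (v : Pt) : ga 2 (Ro v) = ga 1 v + 1 := by
  rw [Ro_eq]
  simp [ga]
  ring

theorem ro0_RoE {E : Finset (Pt × Pt)} (hE : IsPoly E) : ro 0 (RoE E) = ro 2 E := by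
  apply le_antisymm
  · apply ro_le_of
    intro p hp q hq
    rw [Fi_RoE hE, Finset.mem_image] at hp hq
    obtain ⟨p', hp', rfl⟩ := hp
    obtain ⟨q', hq', rfl⟩ := hq
    exact ⟨p', hp', q', hq', by rw [ga0_Ro, ga0_Ro]; ring⟩
  · apply ro_le_of
    intro p hp q hq
    exact ⟨Ro p, (mem_Fi_RoE hE).2 hp, Ro q, (mem_Fi_RoE hE).2 hq, by rw [ga0_Ro, ga0_Ro]; ring⟩

theorem ro1_RoE {E : Finset (Pt × Pt)} (hE : IsPoly E) : ro 1 (RoE E) = ro 0 E := by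
  apply le_antisymm
  · apply ro_le_of
    intro p hp q hq
    rw [Fi_RoE hE, Finset.mem_image] at hp hq
    obtain ⟨p', hp', rfl⟩ := hp
    obtain ⟨q', hq', rfl⟩ := hq
    exact ⟨q', hq', p', hp', by rw [ga1_Ro, ga1_Ro]; ring⟩
  · apply ro_le_of
    intro p hp q hq
    exact ⟨Ro q, (mem_Fi_RoE hE).2 hq, Ro p, (mem_Fi_RoE hE).2 hp, by rw [ga1_Ro, ga1_Ro]; ring⟩

theorem ro2_RoE {E : Finset (Pt × Pt)} (hE : IsPoly E) : ro 2 (RoE E) = ro 1 E := by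
  apply le_antisymm
  · apply ro_le_of
    intro p hp q hq
    rw [Fi_RoE hE, Finset.mem_image] at hp hq
    obtain ⟨p', hp', rfl⟩ := hp
    obtain ⟨q', hq', rfl⟩ := hq
    exact ⟨p', hp', q', hq', by rw [ga2_Ro, ga2_Ro]; ring⟩
  · apply ro_le_of
    intro p hp q hq
    exact ⟨Ro p, (mem_Fi_RoE hE).2 hp, Ro q, (mem_Fi_RoE hE).2 hq, by rw [ga2_Ro, ga2_Ro]; ring⟩

theorem Nw_f0_RoE {E : Finset (Pt × Pt)} (hE : IsPoly E) : Nw (RoE E) f0 = Nw E f0 := by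
  have hf : Fc f0 := by
    unfold Fc cl f0
    decide
  have h := Nw_RoE hE hf
  rwa [Ro_f0] at h

/-- the rotation of the polygons around f0 -/
def rotP (E : {E : Finset (Pt × Pt) // IsPoly E ∧ Nw E f0 ≠ 0}) :
    {E : Finset (Pt × Pt) // IsPoly E ∧ Nw E f0 ≠ 0} :=
  ⟨RoE E.1, isPoly_RoE E.2.1, by rw [Nw_f0_RoE E.2.1]; exact E.2.2⟩

/-- the rotation as a bijection -/
def rotEquiv : {E : Finset (Pt × Pt) // IsPoly E ∧ Nw E f0 ≠ 0} ≃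
    {E : Finset (Pt × Pt) // IsPoly E ∧ Nw E f0 ≠ 0} where
  toFun := rotP
  invFun := fun E => rotP (rotP (rotP (rotP (rotP E))))
  left_inv := fun E => Subtype.ext (RoE6 E.1)
  right_inv := fun E => Subtype.ext (RoE6 E.1)

/-- module H2 of board/THETA -/
theorem nu_rot (φ : ℕ → ℕ → ℕ → ℝ≥0∞) :
    nu (fun E => φ (ro 0 E) (ro 1 E) (ro 2 E)) = nu (fun E => φ (ro 2 E) (ro 0 E) (ro 1 E)) := by
  unfold nu
  rw [← rotEquiv.tsum_eq]
  refine tsum_congr fun E => ?_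
  have hE := E.2.1
  show φ (ro 0 (RoE E.1)) (ro 1 (RoE E.1)) (ro 2 (RoE E.1)) * ENNReal.ofReal (xc ^ (RoE E.1).card) /
    ((Fi (RoE E.1)).card : ℝ≥0∞) = _
  rw [ro0_RoE hE, ro1_RoE hE, ro2_RoE hE, card_RoE, card_Fi_RoE hE]

end TH

end HexObs
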