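import Pool.Agent.TH.FarC
import Pool.Agent.TH.Base
import Pool.Agent.HexLoop.Jordan

/-!
THETA, module H4 (d): the root of a wide polygon around f0; the numerical bound.
-/

set_option autoImplicit false

namespace HexObs

namespace TH

open LP Finset ENNReal

lemma far_ro_le (i : Fin 3) {E : Finset (Pt × Pt)} {g h : Pt} (hg : g ∈ Fi E) (hh : h ∈ Fi E) :
    ga i g - ga i h ≤ 3 * (ro i E : ℤ) - 1 := by
  have h1 := Finset.le_sup (f := fun p : Pt × Pt => ((ga i p.1 - ga i p.2) / 3).toNat)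
    (Finset.mk_mem_product hg hh)
  have h2 : ((ga i g - ga i h) / 3).toNat + 1 ≤ ro i E := by
    unfold ro
    exact Nat.succ_le_succ h1
  omega

lemma far_ro_ge (i : Fin 3) {E : Finset (Pt × Pt)} (hne : (Fi E).Nonempty) :
    ∃ g ∈ Fi E, ∃ h ∈ Fi E, 3 * ((ro i E : ℤ) - 1) ≤ ga i g - ga i h := by
  obtain ⟨p, hp, h1⟩ := Finset.exists_mem_eq_sup (Fi E ×ˢ Fi E) (hne.product hne)
    (fun p : Pt × Pt => ((ga i p.1 - ga i p.2) / 3).toNat)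
  obtain ⟨hp1, hp2⟩ := Finset.mem_product.1 hp
  have h2 : ro i E = ((ga i p.1 - ga i p.2) / 3).toNat + 1 := by
    unfold ro
    rw [h1]
  by_cases h3 : 0 ≤ (ga i p.1 - ga i p.2) / 3
  · exact ⟨p.1, hp1, p.2, hp2, by omega⟩
  · exact ⟨p.1, hp1, p.1, hp1, by omega⟩

lemma far_side : ∀ d ∈ dirs, ∀ c : ZMod 3, c ≠ 1 → c + cl d ≠ 1 → c + cl (rotL d) = 1 ∧ c + cl (rotR d) = 1 := by
  decide

lemma far_small : ∀ d ∈ dirs, (-2 ≤ lv (rotL d) ∧ lv (rotL d) ≤ 2 ∧ -2 ≤ nn (rotL d) ∧ nn (rotL d) ≤ 2) ∧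
    (-2 ≤ lv (rotR d) ∧ lv (rotR d) ≤ 2 ∧ -2 ≤ nn (rotR d) ∧ nn (rotR d) ≤ 2) := by
  decide

/-- every vertex of the polygon is near a face inside. -/
lemma far_near {E : Finset (Pt × Pt)} (hE : IsPoly E) {w : Pt} (hw : w ∈ VE E) :
    ∃ g ∈ Fi E, lv w - 2 ≤ lv g ∧ lv g ≤ lv w + 2 ∧ nn w - 2 ≤ nn g ∧ nn g ≤ nn w + 2 := by
  obtain ⟨p, hp, rfl⟩ := Finset.mem_image.1 hw
  have hd := isPoly_de hE hp
  have hs := side hE hp
  have hv : cl p.1 ≠ 1 := hd.2.1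
  have hv2 : cl (p.1 + p.2) ≠ 1 := hd.2.2
  rw [cl_add] at hv2
  obtain ⟨f1, f2⟩ := far_side _ hd.1 _ hv hv2
  obtain ⟨⟨a1, a2, a3, a4⟩, ⟨b1, b2, b3, b4⟩⟩ := far_small _ hd.1
  by_cases h1 : sg E = 1
  · refine ⟨p.1 + rotL p.2, ?_, ?_⟩
    · rw [mem_Fi hE]
      refine ⟨?_, ?_⟩
      · unfold Fc
        rw [cl_add, f1]
      · rw [hs.1, if_pos h1]
        norm_num
    · rw [lv_add, nn_add]
      refine ⟨?_, ?_, ?_, ?_⟩ <;> linarith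
  · refine ⟨p.1 + rotR p.2, ?_, ?_⟩
    · rw [mem_Fi hE]
      refine ⟨?_, ?_⟩
      · unfold Fc
        rw [cl_add, f2]
      · rw [hs.2, if_neg h1]
        norm_num
    · rw [lv_add, nn_add]
      refine ⟨?_, ?_, ?_, ?_⟩ <;> linarith

/-- the possible roots. -/
noncomputable def Bo (R : ℕ) : Finset Pt := Finset.Icc (-(3 * R + 2 : ℤ)) (3 * R + 2) ×ˢ Finset.Icc (-(3 * R + 2 : ℤ)) (3 * R + 2)

lemma Bo_card (R : ℕ) : (Bo R).card = (6 * R + 5) ^ 2 := by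
  unfold Bo
  rw [Finset.card_product, Int.card_Icc]
  have : (3 * (R : ℤ) + 2 + 1 - -(3 * R + 2)).toNat = 6 * R + 5 := by omega
  rw [this, sq]

theorem far_root {E : Finset (Pt × Pt)} (hE : IsPoly E) (h0 : Nw E f0 ≠ 0) {T : ℕ} (hT : ro 0 E ≤ T)
    (hTR : T ≤ ro 1 E) :
    ∃ v b c τ m, Poly v (turn b up) τ m ∧ E = pe v (turn b up) τ m ∧ ds (turn b up) τ (m - 1) = -turn (!b) up ∧
      (c = false → ds (turn b up) τ (m - 2) = turn b up) ∧ v ∈ Bo (ro 1 E) ∧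
      wd τ m b c ∈ FA (T + 2) ((ro 1 E - 2) / 2) ∧
      ENNReal.ofReal (xc ^ E.card) ≤ ENNReal.ofReal xc⁻¹ * wE (wd τ m b c) := by
  obtain ⟨v, b, τ, m, hP, hEE, hl, hc, hv, hlow⟩ := low_root hE
  have hf0 : f0 ∈ Fi E := by
    rw [mem_Fi hE]
    refine ⟨?_, h0⟩
    unfold Fc
    decide
  have hne : (Fi E).Nonempty := ⟨_, hf0⟩
  have e0 : ∀ x, ga 0 x = lv x := fun x => rfl
  have e1 : ∀ x, ga 1 x = nn x := fun x => rfl
  have lf : lv f0 = 1 := by decide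
  have nf : nn f0 = 1 := by decide
  obtain ⟨g1, hg1, n1, n2, n3, n4⟩ := far_near hE hv
  have hT' : (ro 0 E : ℤ) ≤ T := by exact_mod_cast hT
  have hTR' : (T : ℤ) ≤ ro 1 E := by exact_mod_cast hTR
  have hhigh : ∀ w ∈ VE E, lv w < lv v + 3 * ((T + 2 : ℕ) : ℤ) := by
    intro w hw
    obtain ⟨g2, hg2, m1, m2, m3, m4⟩ := far_near hE hw
    have h1 := far_ro_le 0 hg2 hg1
    rw [e0, e0] at h1
    push_cast
    linarith
  have hfar : 1 ≤ (ro 1 E - 2) / 2 → ∃ w ∈ VE E, (3 * ((ro 1 E - 2) / 2 : ℕ) + 1 : ℤ) ≤ |nn w - nn v| := by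
    intro hρ
    obtain ⟨g, hg, h, hh, h1⟩ := far_ro_ge 1 hne
    rw [e1, e1] at h1
    obtain ⟨_, _, _, w1, hw1, k1⟩ := fi_bounds hE (g := g) ((mem_Fi hE).1 hg)
    obtain ⟨_, _, ⟨w2, hw2, k2⟩, _⟩ := fi_bounds hE (g := h) ((mem_Fi hE).1 hh)
    have hR : 2 * (((ro 1 E - 2) / 2 : ℕ) : ℤ) + 2 ≤ ro 1 E := by omega
    by_cases h2 : (3 * ((ro 1 E - 2) / 2 : ℕ) + 1 : ℤ) ≤ nn w1 - nn v
    · exact ⟨w1, hw1, le_abs.2 (Or.inl h2)⟩
    · refine ⟨w2, hw2, le_abs.2 (Or.inr ?_)⟩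
      push Not at h2
      omega
  have hP' := hP
  rw [hEE] at hlow hhigh hfar
  obtain ⟨c, c1, c2, c3⟩ := poly_arc hP hl hc hlow hhigh (by omega) hfar
  have hcard : E.card = m := by
    rw [hEE]
    exact pe_card hP
  rw [← hEE] at c1
  refine ⟨v, b, c, τ, m, hP, hEE, hl, c2, ?_, c1, ?_⟩
  · have h1 := far_ro_le 0 hg1 hf0
    have h2 := far_ro_le 0 hf0 hg1
    have h3 := far_ro_le 1 hg1 hf0
    have h4 := far_ro_le 1 hf0 hg1
    rw [e0, e0, lf] at h1 h2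
    rw [e1, e1, nf] at h3 h4
    unfold lv at h1 h2 n1 n2
    unfold nn at h3 h4 n3 n4
    unfold Bo
    rw [Finset.mem_product, Finset.mem_Icc, Finset.mem_Icc]
    refine ⟨⟨?_, ?_⟩, ?_, ?_⟩ <;> omega
  · rw [hcard]
    exact c3

/-- the numerical bound. -/
lemma far_num {ε q : ℝ} (hε : 0 < ε) (hq : 0 < q) (hq1 : q < 1) : ∃ K : ℝ, 0 ≤ K ∧ ∀ T R : ℕ, 1 ≤ T →
    (T : ℝ) ^ (1 + ε) < R → (R : ℝ) ^ 6 * q ^ ((R - 2) / 2 / (T + 2)) ≤ K := by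
  obtain ⟨k, hk⟩ := exists_nat_ge (6 * ((1 + ε) / ε))
  have hlim := tendsto_pow_const_mul_const_pow_of_abs_lt_one k (r := q) (by rw [abs_of_pos hq]; exact hq1)
  obtain ⟨B, hB⟩ := hlim.bddAbove_range
  have hB' : ∀ n : ℕ, (n : ℝ) ^ k * q ^ n ≤ B := fun n => hB ⟨n, rfl⟩
  have hB0 : 0 ≤ B := le_trans (by positivity) (hB' 0)
  refine ⟨12 ^ k * (B / q), by positivity, fun T R hT hR => ?_⟩
  obtain ⟨n, hn⟩ : ∃ n, n = (R - 2) / 2 / (T + 2) := ⟨_, rfl⟩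
  rw [← hn]
  have hT1 : (1 : ℝ) ≤ T := by exact_mod_cast hT
  have hT0 : (0 : ℝ) < T := by linarith
  have hR1 : (1 : ℝ) < R := lt_of_le_of_lt (Real.one_le_rpow hT1 (by linarith)) hR
  have hR2 : 2 ≤ R := by
    have : 1 < R := by exact_mod_cast hR1
    omega
  have hR0 : (0 : ℝ) < R := by linarith
  -- R ≤ 12 (n + 1) T
  have h1 : (R - 2) / 2 < (T + 2) * (n + 1) := by
    rw [hn]
    exact Nat.lt_mul_div_succ _ (by omega)
  have h2 : R ≤ 12 * (n + 1) * T := by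
    have h3 : R ≤ 2 * ((T + 2) * (n + 1)) + 1 := by omega
    have h4 : (T + 2) * (n + 1) ≤ 3 * T * (n + 1) := Nat.mul_le_mul_right _ (by omega)
    have h5 : 1 ≤ T * (n + 1) := Nat.mul_pos (by omega) (by omega)
    calc R ≤ 2 * (3 * T * (n + 1)) + T * (n + 1) := by omega
      _ = 7 * (T * (n + 1)) := by ring
      _ ≤ 12 * (T * (n + 1)) := Nat.mul_le_mul_right _ (by omega)
      _ = 12 * (n + 1) * T := by ring
  obtain ⟨a, ha⟩ : ∃ a : ℝ, a = 12 * ((n : ℝ) + 1) := ⟨_, rfl⟩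
  have hn0 : (0 : ℝ) ≤ n := Nat.cast_nonneg n
  have ha1 : 1 ≤ a := by
    rw [ha]
    linarith
  have ha0 : 0 < a := by linarith
  have h3 : (R : ℝ) ≤ a * T := by
    rw [ha]
    exact_mod_cast h2
  have h4 : (R : ℝ) ^ ε ≤ a ^ (1 + ε) := by
    have h5 : (R : ℝ) ^ (1 + ε) ≤ a ^ (1 + ε) * (T : ℝ) ^ (1 + ε) := by
      rw [← Real.mul_rpow ha0.le hT0.le]
      exact Real.rpow_le_rpow hR0.le h3 (by linarith)
    have h6 : a ^ (1 + ε) * (T : ℝ) ^ (1 + ε) ≤ a ^ (1 + ε) * R :=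
      mul_le_mul_of_nonneg_left hR.le (Real.rpow_nonneg ha0.le _)
    rw [Real.rpow_add hR0, Real.rpow_one, mul_comm] at h5
    exact le_of_mul_le_mul_right (h5.trans h6) hR0
  have h5 : (R : ℝ) ≤ a ^ ((1 + ε) / ε) := by
    have h6 := Real.rpow_le_rpow (Real.rpow_nonneg hR0.le _) h4 (z := 1 / ε) (by positivity)
    rw [← Real.rpow_mul hR0.le, ← Real.rpow_mul ha0.le, mul_one_div_cancel hε.ne', Real.rpow_one] at h6
    rwa [mul_one_div] at h6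
  have h6 : (R : ℝ) ^ 6 ≤ a ^ k := by
    calc (R : ℝ) ^ 6 ≤ (a ^ ((1 + ε) / ε)) ^ 6 := pow_le_pow_left₀ hR0.le h5 6
      _ = a ^ (6 * ((1 + ε) / ε)) := by
        rw [← Real.rpow_natCast, ← Real.rpow_mul ha0.le]
        congr 1
        push_cast
        ring
      _ ≤ a ^ (k : ℝ) := Real.rpow_le_rpow_of_exponent_le ha1 hk
      _ = a ^ k := Real.rpow_natCast _ _
  have h7 : ((n : ℝ) + 1) ^ k * q ^ n ≤ B / q := by
    rw [le_div_iff₀ hq]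
    have h8 := hB' (n + 1)
    push_cast at h8
    calc ((n : ℝ) + 1) ^ k * q ^ n * q = ((n : ℝ) + 1) ^ k * q ^ (n + 1) := by ring
      _ ≤ B := h8
  calc (R : ℝ) ^ 6 * q ^ n ≤ a ^ k * q ^ n := mul_le_mul_of_nonneg_right h6 (pow_nonneg hq.le _)
    _ = 12 ^ k * (((n : ℝ) + 1) ^ k * q ^ n) := by
      rw [ha, mul_pow]
      ring
    _ ≤ 12 ^ k * (B / q) := mul_le_mul_of_nonneg_left h7 (by positivity)

end TH

end HexObs
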