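import Pool.Agent.TH.LLnu
import Pool.Agent.TH.Area
import Pool.Agent.TH.Rot
import Pool.Agent.TH.NFexp

/-!
THETA, module H6, part 2: the weight of the polygons around f0 in the parallelogram PP R R.
-/

set_option autoImplicit false

namespace HexObs

namespace TH

open LP Finset ENNReal

theorem nu_mono' {g g' : Finset (Pt × Pt) → ℝ≥0∞} (h : ∀ E : Finset (Pt × Pt), LP.IsPoly E → Nw E f0 ≠ 0 → g E ≤ g' E) : nu g ≤ nu g' := by
  unfold nu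
  refine ENNReal.tsum_le_tsum fun E => ?_
  have := h E.1 E.2.1 E.2.2
  gcongr

theorem nu_add' (g g' : Finset (Pt × Pt) → ℝ≥0∞) : nu (fun E => g E + g' E) = nu g + nu g' := by
  unfold nu
  rw [← ENNReal.tsum_add]
  refine tsum_congr fun E => ?_
  rw [add_mul, ENNReal.add_div]

theorem nu_mul' (c : ℝ≥0∞) (g : Finset (Pt × Pt) → ℝ≥0∞) : nu (fun E => c * g E) = c * nu g := by
  unfold nu
  rw [← ENNReal.tsum_mul_left]
  refine tsum_congr fun E => ?_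
  rw [mul_assoc, mul_div_assoc]

theorem nn_Fc {g : Pt} (hg : Fc g) : ∃ a : ℤ, nn g = 1 + 3 * a := by
  obtain ⟨a, ha⟩ := lv_Fc hg
  refine ⟨a - g.2, ?_⟩
  unfold lv at ha
  unfold nn
  linarith

theorem ro_one_PP {m M : ℕ} {E : Finset (Pt × Pt)} (hE : E ∈ polys (PP m M)) (hf : Nw E f0 ≠ 0) : ro 1 E ≤ 2 * M := by
  obtain ⟨hP, hV⟩ := mem_polys.1 hE
  have hF : ∀ g ∈ Fi E, ∃ a : ℤ, nn g = 1 + 3 * a ∧ 1 - (M : ℤ) ≤ a ∧ a ≤ (M : ℤ) - 1 := by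
    intro g hg
    obtain ⟨h1, h2⟩ := (mem_Fi hP).1 hg
    obtain ⟨a, ha⟩ := nn_Fc h1
    obtain ⟨_, _, ⟨v, hv, e1⟩, ⟨w, hw, e2⟩⟩ := fi_bounds hP (g := g) ⟨h1, h2⟩
    have k1 := (mem_PP.1 (hV hv)).2.2
    have k2 := (mem_PP.1 (hV hw)).2.2
    rw [abs_lt] at k1 k2
    refine ⟨a, ha, ?_, ?_⟩ <;> omega
  have h0 : f0 ∈ Fi E := (mem_Fi hP).2 ⟨Fc_f0, hf⟩
  obtain ⟨a0, _, b1, b2⟩ := hF f0 h0
  have hsup : (Fi E ×ˢ Fi E).sup (fun p => ((ga 1 p.1 - ga 1 p.2) / 3).toNat) ≤ 2 * M - 1 := by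
    refine Finset.sup_le fun p hp => ?_
    obtain ⟨hp1, hp2⟩ := Finset.mem_product.1 hp
    obtain ⟨a, ha, c1, c2⟩ := hF _ hp1
    obtain ⟨b, hb, d1, d2⟩ := hF _ hp2
    have e1 : ga 1 p.1 = nn p.1 := rfl
    have e2 : ga 1 p.2 = nn p.2 := rfl
    rw [e1, e2, ha, hb]
    have : (1 + 3 * a - (1 + 3 * b)) / 3 = a - b := by
      rw [show 1 + 3 * a - (1 + 3 * b) = 3 * (a - b) by ring]
      exact Int.mul_ediv_cancel_left _ (by norm_num)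
    rw [this]
    omega
  unfold ro
  omega

theorem LL_nu2 (R : ℕ) : ENNReal.ofReal (LL (PP R R) f0) ≤
    nu (fun E => if ro 0 E ≤ 2 * R ∧ ro 1 E ≤ 2 * R then ((Fi E).card : ℝ≥0∞) else 0) := by
  classical
  unfold LL
  rw [ENNReal.ofReal_sum_of_nonneg fun E _ => pow_nonneg xc_pos.le _]
  unfold nu
  have hsub : ∀ E ∈ (polys (PP R R)).filter (fun E => Nw E f0 ≠ 0), IsPoly E ∧ Nw E f0 ≠ 0 := by
    intro E hE
    obtain ⟨h1, h2⟩ := Finset.mem_filter.1 hE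
    exact ⟨(mem_polys.1 h1).1, h2⟩
  have key : ∑ E ∈ (polys (PP R R)).filter (fun E => Nw E f0 ≠ 0), ENNReal.ofReal (xc ^ E.card) =
      ∑ E : {E // E ∈ (polys (PP R R)).filter (fun E => Nw E f0 ≠ 0)},
        (fun E : {E : Finset (Pt × Pt) // IsPoly E ∧ Nw E f0 ≠ 0} =>
          (if ro 0 E.1 ≤ 2 * R ∧ ro 1 E.1 ≤ 2 * R then ((Fi E.1).card : ℝ≥0∞) else 0) *
            ENNReal.ofReal (xc ^ E.1.card) / ((Fi E.1).card : ℝ≥0∞)) ⟨E.1, hsub E.1 E.2⟩ := by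
    rw [← Finset.sum_coe_sort]
    refine Finset.sum_congr rfl fun E _ => ?_
    obtain ⟨h1, h2⟩ := Finset.mem_filter.1 E.2
    have hP := (mem_polys.1 h1).1
    have h3 := ro_PP h1 h2
    have h4 := ro_one_PP h1 h2
    simp only
    rw [if_pos ⟨h3, h4⟩]
    have hc : (Fi E.1).card ≠ 0 := Finset.card_ne_zero_of_mem ((mem_Fi hP).2 ⟨Fc_f0, h2⟩)
    rw [mul_comm, ENNReal.mul_div_cancel_right (by exact_mod_cast hc) (ENNReal.natCast_ne_top _)]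
  rw [key, ← tsum_fintype (L := SummationFilter.unconditional _)]
  exact ENNReal.tsum_comp_le_tsum_of_injective
    (f := fun E : {E // E ∈ (polys (PP R R)).filter (fun E => Nw E f0 ≠ 0)} =>
      (⟨E.1, hsub E.1 E.2⟩ : {E : Finset (Pt × Pt) // IsPoly E ∧ Nw E f0 ≠ 0}))
    (fun a b h => Subtype.ext (by simpa using congrArg Subtype.val h)) _

/-- the area inequality and the symmetry. -/
theorem LL_sq (R : ℕ) : 4 * ENNReal.ofReal (LL (PP R R) f0) ≤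
    3 * nu (fun E => if ro 0 E ≤ 4 * R then ((ro 0 E : ℝ≥0∞)) ^ 2 else 0) + nu (fun _ => 1) := by
  have h1 := LL_nu2 R
  have e1 : nu (fun E => if ro 1 E ≤ 4 * R then ((ro 1 E : ℝ≥0∞)) ^ 2 else 0) =
      nu (fun E => if ro 0 E ≤ 4 * R then ((ro 0 E : ℝ≥0∞)) ^ 2 else 0) :=
    nu_rot (fun _ b _ => if b ≤ 4 * R then ((b : ℝ≥0∞)) ^ 2 else 0)
  have e2 : nu (fun E => if ro 2 E ≤ 4 * R then ((ro 2 E : ℝ≥0∞)) ^ 2 else 0) =
      nu (fun E => if ro 0 E ≤ 4 * R then ((ro 0 E : ℝ≥0∞)) ^ 2 else 0) :=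
    (nu_rot (fun _ _ c => if c ≤ 4 * R then ((c : ℝ≥0∞)) ^ 2 else 0)).trans e1
  have h2 : nu (fun E => 4 * (if ro 0 E ≤ 2 * R ∧ ro 1 E ≤ 2 * R then ((Fi E).card : ℝ≥0∞) else 0)) ≤
      nu (fun E => ((if ro 0 E ≤ 4 * R then ((ro 0 E : ℝ≥0∞)) ^ 2 else 0) +
        (if ro 1 E ≤ 4 * R then ((ro 1 E : ℝ≥0∞)) ^ 2 else 0)) +
        ((if ro 2 E ≤ 4 * R then ((ro 2 E : ℝ≥0∞)) ^ 2 else 0) + 1)) := by
    apply nu_mono'
    intro E hE _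
    by_cases h : ro 0 E ≤ 2 * R ∧ ro 1 E ≤ 2 * R
    · have h3 := area_le hE
      have h4 := ro2_le hE
      rw [if_pos h, if_pos (by omega), if_pos (by omega), if_pos (by omega)]
      have h5 : ((4 * (Fi E).card : ℕ) : ℝ≥0∞) ≤ ((ro 0 E ^ 2 + ro 1 E ^ 2 + ro 2 E ^ 2 + 1 : ℕ) : ℝ≥0∞) := by
        exact_mod_cast h3
      push_cast at h5
      rw [← add_assoc]
      exact h5
    · rw [if_neg h, mul_zero]
      exact zero_le
  rw [nu_mul', nu_add', nu_add', nu_add', e1, e2] at h2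
  calc 4 * ENNReal.ofReal (LL (PP R R) f0) ≤ 4 * nu (fun E => if ro 0 E ≤ 2 * R ∧ ro 1 E ≤ 2 * R then
        ((Fi E).card : ℝ≥0∞) else 0) := by gcongr
    _ ≤ _ := h2
    _ = _ := by ring

end TH

end HexObs
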