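import Pool.Agent.HexLoop.DefsD

/-!
# The faces inside a polygon and sums over the polygons modulo translations
-/

set_option autoImplicit false

namespace HexObs

namespace TH

open LP Finset ENNReal

/-- the faces inside the polygon E -/
def fi (E : Finset (Pt × Pt)) : Set Pt := {g | Fc g ∧ Nw E g ≠ 0}

/-- the same as a finite set -/
noncomputable def Fi (E : Finset (Pt × Pt)) : Finset Pt := by
  classical
  exact if h : (fi E).Finite then h.toFinset else ∅

/-- the three directions -/
def ga (i : Fin 3) (v : Pt) : ℤ := ![v.1 + 2 * v.2, v.1 - v.2, 2 * v.1 + v.2] i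

/-- number of the rows of faces in the direction i -/
noncomputable def ro (i : Fin 3) (E : Finset (Pt × Pt)) : ℕ :=
  (Fi E ×ˢ Fi E).sup (fun p => ((ga i p.1 - ga i p.2) / 3).toNat) + 1

/-- sums over the (oriented) polygons modulo translations -/
noncomputable def nu (g : Finset (Pt × Pt) → ℝ≥0∞) : ℝ≥0∞ :=
  ∑' E : {E : Finset (Pt × Pt) // IsPoly E ∧ Nw E f0 ≠ 0},
    g E.1 * ENNReal.ofReal (xc ^ E.1.card) / ((Fi E.1).card : ℝ≥0∞)

end TH

end HexObs
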