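import Pool.Agent.TH.FarD

/-!
THETA, module H4: the weight of the wide polygons of a strip.
-/

set_option autoImplicit false

namespace HexObs

namespace TH

open LP Finset ENNReal

/-- the data of a root and of an arc: width, root, two bits, word. -/
abbrev FI : Type := ℕ × (Pt × ((Bool × Bool) × List Bool))

open Classical in
/-- the weight of the data. -/
noncomputable def FW (ε : ℝ) (T : ℕ) (x : FI) : ℝ≥0∞ :=
  (if (T : ℝ) ^ (1 + ε) < x.1 then (x.1 : ℝ≥0∞) ^ 2 * ENNReal.ofReal xc⁻¹ else 0) *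
    ((if x.2.1 ∈ Bo x.1 then 1 else 0) * (1 * (FA (T + 2) ((x.1 - 2) / 2)).indicator wE x.2.2.2))

lemma FW_sum (ε : ℝ) (T : ℕ) : ∑' x : FI, FW ε T x =
    ∑' R : ℕ, (if (T : ℝ) ^ (1 + ε) < R then (R : ℝ≥0∞) ^ 2 * ENNReal.ofReal xc⁻¹ else 0) *
      (((Bo R).card : ℝ≥0∞) * (4 * gf (FA (T + 2) ((R - 2) / 2)))) := by
  classical
  unfold FW
  rw [ENNReal.tsum_prod (f := fun (R : ℕ) (y : Pt × ((Bool × Bool) × List Bool)) =>
    (if (T : ℝ) ^ (1 + ε) < R then (R : ℝ≥0∞) ^ 2 * ENNReal.ofReal xc⁻¹ else 0) *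
    ((if y.1 ∈ Bo R then 1 else 0) * (1 * (FA (T + 2) ((R - 2) / 2)).indicator wE y.2.2)))]
  apply tsum_congr
  intro R
  rw [ENNReal.tsum_mul_left]
  congr 1
  rw [ENNReal.tsum_prod (f := fun (v : Pt) (y : (Bool × Bool) × List Bool) =>
    ((if v ∈ Bo R then 1 else 0) * (1 * (FA (T + 2) ((R - 2) / 2)).indicator wE y.2)))]
  simp only [ENNReal.tsum_mul_left, ENNReal.tsum_mul_right]
  congr 1
  · rw [tsum_eq_sum (s := Bo R) (fun v hv => if_neg hv)]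
    rw [Finset.sum_ite_mem, Finset.inter_self, Finset.sum_const, nsmul_eq_mul, mul_one]
  · rw [ENNReal.tsum_prod (f := fun (_ : Bool × Bool) (W : List Bool) =>
      (FA (T + 2) ((R - 2) / 2)).indicator wE W)]
    rw [one_mul, tsum_fintype, Finset.sum_const, nsmul_eq_mul]
    congr 1
    unfold gf
    rw [_root_.tsum_subtype]

theorem nu_far {ε : ℝ} (hε : 0 < ε) : ∃ C : ℝ, ∀ T : ℕ, 1 ≤ T →
    nu (fun E => if ro 0 E ≤ T ∧ (T : ℝ) ^ (1 + ε) < (ro 1 E : ℝ) then ((ro 1 E : ℝ≥0∞)) ^ 2 else 0) ≤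
      ENNReal.ofReal C := by
  classical
  obtain ⟨C, q, hC, hq, hq1, hF⟩ := gf_FA
  obtain ⟨K, hK0, hK⟩ := far_num hε hq hq1
  have hx0 := xc_pos
  obtain ⟨M, hM⟩ : ∃ M : ℝ, M = 324 * xc⁻¹ * C * K := ⟨_, rfl⟩
  have hM0 : 0 ≤ M := by
    rw [hM]
    positivity
  have hsum : Summable (fun R : ℕ => M * (1 / (R : ℝ) ^ 2)) :=
    (Real.summable_one_div_nat_pow.2 (by norm_num)).mul_left M
  refine ⟨∑' R : ℕ, M * (1 / (R : ℝ) ^ 2), fun T hT => ?_⟩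
  have hT1 : (1 : ℝ) ≤ T := by exact_mod_cast hT
  -- the support
  obtain ⟨S, hS⟩ : ∃ S : Set {E : Finset (Pt × Pt) // IsPoly E ∧ Nw E f0 ≠ 0},
      S = {E | ro 0 E.1 ≤ T ∧ (T : ℝ) ^ (1 + ε) < (ro 1 E.1 : ℝ)} := ⟨_, rfl⟩
  have hSm : ∀ E, E ∈ S ↔ (ro 0 E.1 ≤ T ∧ (T : ℝ) ^ (1 + ε) < (ro 1 E.1 : ℝ)) := by
    intro E
    rw [hS]
    rfl
  have hroot : ∀ E : S, ∃ x : FI, x.1 = ro 1 E.1.1 ∧ ∃ τ m,
      Poly x.2.1 (turn x.2.2.1.1 up) τ m ∧ E.1.1 = pe x.2.1 (turn x.2.2.1.1 up) τ m ∧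
      ds (turn x.2.2.1.1 up) τ (m - 1) = -turn (!x.2.2.1.1) up ∧
      (x.2.2.1.2 = false → ds (turn x.2.2.1.1 up) τ (m - 2) = turn x.2.2.1.1 up) ∧ x.2.1 ∈ Bo x.1 ∧
      x.2.2.2 = wd τ m x.2.2.1.1 x.2.2.1.2 ∧ x.2.2.2 ∈ FA (T + 2) ((x.1 - 2) / 2) ∧
      ENNReal.ofReal (xc ^ E.1.1.card) ≤ ENNReal.ofReal xc⁻¹ * wE x.2.2.2 := by
    rintro ⟨⟨E, hE, h0⟩, hEs⟩
    rw [hS] at hEs
    obtain ⟨h1, h2⟩ := hEs
    have h3 : T ≤ ro 1 E := by
      have h4 : (T : ℝ) ≤ (T : ℝ) ^ (1 + ε) := by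
        calc (T : ℝ) = (T : ℝ) ^ (1 : ℝ) := (Real.rpow_one _).symm
          _ ≤ _ := Real.rpow_le_rpow_of_exponent_le hT1 (by linarith)
      have h5 : (T : ℝ) ≤ ro 1 E := by linarith
      exact_mod_cast h5
    obtain ⟨v, b, c, τ, m, a1, a2, a3, a4, a5, a6, a7⟩ := far_root hE h0 h1 h3
    exact ⟨(ro 1 E, (v, ((b, c), wd τ m b c))), rfl, τ, m, a1, a2, a3, a4, a5, rfl, a6, a7⟩
  choose φ hφ1 hφ2 using hroot
  have hinj : Function.Injective φ := by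
    intro E E' h
    obtain ⟨τ, m, a1, a2, a3, a4, a5, a6, a7, a8⟩ := hφ2 E
    obtain ⟨σ, n, b1, b2, b3, b4, b5, b6, b7, b8⟩ := hφ2 E'
    rw [← h] at b1 b2 b3 b4 b6
    apply Subtype.ext
    apply Subtype.ext
    rw [a2, b2]
    exact poly_inj a1 b1 a3 b3 a4 b4 (by rw [← a6, ← b6])
  -- the sum
  have h1 : nu (fun E => if ro 0 E ≤ T ∧ (T : ℝ) ^ (1 + ε) < (ro 1 E : ℝ) then ((ro 1 E : ℝ≥0∞)) ^ 2 else 0) ≤
      ∑' E : S, FW ε T (φ E) := by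
    unfold nu
    rw [← tsum_subtype_eq_of_support_subset (s := S)]
    · apply ENNReal.tsum_le_tsum
      intro E
      obtain ⟨τ, m, a1, a2, a3, a4, a5, a6, a7, a8⟩ := hφ2 E
      have hEs := (hSm E.1).1 E.2
      have hE1 := hφ1 E
      show (if _ then _ else _) * _ / _ ≤ _
      rw [if_pos hEs]
      unfold FW
      rw [if_pos a5, Set.indicator_of_mem a7, hE1, if_pos hEs.2, one_mul, one_mul]
      have hcard : (1 : ℝ≥0∞) ≤ ((Fi E.1.1).card : ℝ≥0∞) := by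
        have h2 : f0 ∈ Fi E.1.1 := by
          rw [mem_Fi E.1.2.1]
          refine ⟨?_, E.1.2.2⟩
          unfold Fc
          decide
        have h3 : 1 ≤ (Fi E.1.1).card := Finset.card_pos.2 ⟨_, h2⟩
        exact_mod_cast h3
      calc _ ≤ (ro 1 E.1.1 : ℝ≥0∞) ^ 2 * ENNReal.ofReal (xc ^ E.1.1.card) / 1 := by
            apply ENNReal.div_le_div_left hcard
        _ = (ro 1 E.1.1 : ℝ≥0∞) ^ 2 * ENNReal.ofReal (xc ^ E.1.1.card) := div_one _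
        _ ≤ (ro 1 E.1.1 : ℝ≥0∞) ^ 2 * (ENNReal.ofReal xc⁻¹ * wE (φ E).2.2.2) := mul_le_mul' le_rfl a8
        _ = _ := (mul_assoc _ _ _).symm
    · intro E hE
      rw [hSm]
      by_contra hcon
      apply hE
      show (if _ then _ else _) * _ / _ = _
      rw [if_neg hcon, zero_mul, ENNReal.zero_div]
  refine h1.trans ?_
  refine (ENNReal.tsum_comp_le_tsum_of_injective hinj (FW ε T)).trans ?_
  rw [FW_sum, ENNReal.ofReal_tsum_of_nonneg (fun R => by positivity) hsum]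
  apply ENNReal.tsum_le_tsum
  intro R
  by_cases hR : (T : ℝ) ^ (1 + ε) < R
  · rw [if_pos hR, Bo_card]
    have hR1 : (1 : ℝ) < R := lt_of_le_of_lt (Real.one_le_rpow hT1 (by linarith)) hR
    have h2 := hF (T + 2) ((R - 2) / 2) (by omega)
    have h3 := hK T R hT hR
    obtain ⟨n, hn⟩ : ∃ n, n = (R - 2) / 2 / (T + 2) := ⟨_, rfl⟩
    rw [← hn] at h2 h3
    have e1 : ((R : ℝ≥0∞)) ^ 2 = ENNReal.ofReal ((R : ℝ) ^ 2) := by
      rw [ENNReal.ofReal_pow (by positivity), ENNReal.ofReal_natCast]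
    have e2 : ((((6 * R + 5) ^ 2 : ℕ)) : ℝ≥0∞) = ENNReal.ofReal ((6 * (R : ℝ) + 5) ^ 2) := by
      rw [← ENNReal.ofReal_natCast]
      push_cast
      rfl
    have e3 : (4 : ℝ≥0∞) = ENNReal.ofReal 4 := by
      rw [ENNReal.ofReal_ofNat]
    calc _ ≤ ((R : ℝ≥0∞)) ^ 2 * ENNReal.ofReal xc⁻¹ * (((((6 * R + 5) ^ 2 : ℕ)) : ℝ≥0∞) *
          (4 * ENNReal.ofReal (C * q ^ n))) := by gcongr
      _ = ENNReal.ofReal ((R : ℝ) ^ 2 * xc⁻¹ * ((6 * (R : ℝ) + 5) ^ 2 * (4 * (C * q ^ n)))) := by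
        rw [e1, e2, e3, ← ENNReal.ofReal_mul (by positivity), ← ENNReal.ofReal_mul (by positivity),
          ← ENNReal.ofReal_mul (by positivity), ← ENNReal.ofReal_mul (by positivity)]
      _ ≤ ENNReal.ofReal (M * (1 / (R : ℝ) ^ 2)) := by
        apply ENNReal.ofReal_le_ofReal
        have hq0 : 0 ≤ q ^ n := pow_nonneg hq.le _
        have hR0 : (0 : ℝ) < R := by linarith
        rw [mul_one_div, le_div_iff₀ (by positivity), hM]
        have h4 : (6 * (R : ℝ) + 5) ^ 2 ≤ 81 * (R : ℝ) ^ 2 := by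
          have hR2 : (2 : ℝ) ≤ R := by
            have : 1 < R := by exact_mod_cast hR1
            exact_mod_cast this
          nlinarith
        calc (R : ℝ) ^ 2 * xc⁻¹ * ((6 * (R : ℝ) + 5) ^ 2 * (4 * (C * q ^ n))) * (R : ℝ) ^ 2
            ≤ (R : ℝ) ^ 2 * xc⁻¹ * ((81 * (R : ℝ) ^ 2) * (4 * (C * q ^ n))) * (R : ℝ) ^ 2 := by gcongr
          _ = 324 * xc⁻¹ * C * ((R : ℝ) ^ 6 * q ^ n) := by ring
          _ ≤ 324 * xc⁻¹ * C * K := mul_le_mul_of_nonneg_left h3 (by positivity)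
  · rw [if_neg hR, zero_mul]
    exact zero_le

end TH

end HexObs
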