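import Pool.Agent.HexLoop.Arc
import Pool.Agent.PHW.Num1

/-!
THETA, module H4 (a): arcs of the strip that go far.
-/

set_option autoImplicit false

namespace HexObs

namespace TH

open LP Finset ENNReal

/-- the arcs of the strip of height T from the foot 0 that go to the distance 3 ρ. -/
def FA (T ρ : ℕ) : Set (List Bool) :=
  {t | t ∈ out (St T) oo up (-up) ∧ ∃ i, 1 ≤ i ∧ i ≤ t.length ∧ (3 * ρ : ℤ) ≤ |nn (vx oo up t i)|}

lemma far_nn (t : List Bool) (i : ℕ) : |nn (vx oo up t i)| ≤ 2 * i := by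
  induction i with
  | zero =>
    show |nn oo| ≤ _
    simp [nn, oo]
  | succ i ih =>
    have h1 : vx oo up t (i + 1) = vx oo up t i + dx up t i := rfl
    have h2 : dx up t i ∈ dirs := dx_mem upd t i
    have h3 : ∀ d ∈ dirs, -2 ≤ nn d ∧ nn d ≤ 2 := by decide
    have h4 : nn (vx oo up t i + dx up t i) = nn (vx oo up t i) + nn (dx up t i) := by
      unfold nn
      simp only [Prod.fst_add, Prod.snd_add]
      ring
    have h5 := h3 _ h2
    rw [abs_le] at ih ⊢
    rw [h1, h4]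
    push_cast
    constructor <;> linarith [h5.1, h5.2, ih.1, ih.2]

lemma far_AT {T : ℕ} (hT : 1 ≤ T) : AT T ≤ ENNReal.ofReal ((Real.cos (3 * Real.pi / 8))⁻¹) := by
  have hcos := arcA_cos
  have h1 := BT_add_AT hT
  have h2 : ENNReal.ofReal (Real.cos (3 * Real.pi / 8)) * AT T ≤ 1 := by
    rw [← h1]
    exact le_add_self
  have h3 : ENNReal.ofReal ((Real.cos (3 * Real.pi / 8))⁻¹) * ENNReal.ofReal (Real.cos (3 * Real.pi / 8)) = 1 := by
    rw [← ENNReal.ofReal_mul (inv_nonneg.2 hcos.le), inv_mul_cancel₀ hcos.ne', ENNReal.ofReal_one]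
  calc AT T = ENNReal.ofReal ((Real.cos (3 * Real.pi / 8))⁻¹) *
        (ENNReal.ofReal (Real.cos (3 * Real.pi / 8)) * AT T) := by rw [← mul_assoc, h3, one_mul]
    _ ≤ ENNReal.ofReal ((Real.cos (3 * Real.pi / 8))⁻¹) * 1 := mul_le_mul' le_rfl h2
    _ = _ := mul_one _

/-- exponential decay of the weight of the arcs that go far. -/
theorem gf_FA : ∃ C q : ℝ, 0 < C ∧ 0 < q ∧ q < 1 ∧ ∀ T ρ : ℕ, 1 ≤ T →
    gf (FA T ρ) ≤ ENNReal.ofReal (C * q ^ (ρ / T)) := by
  classical
  obtain ⟨C, q, hC, hq, hq1, hg⟩ := gate_bound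
  have hcos := arcA_cos
  obtain ⟨K, hK⟩ : ∃ K, K = (Real.cos (3 * Real.pi / 8))⁻¹ := ⟨_, rfl⟩
  have hK0 : 0 < K := by
    rw [hK]
    exact inv_pos.2 hcos
  refine ⟨2 * (K * C) + K, q, by positivity, hq, hq1, fun T ρ hT => ?_⟩
  rcases Nat.eq_zero_or_pos ρ with h0 | h0
  · have h1 : gf (FA T ρ) ≤ AT T := gf_mono (fun t ht => ht.1)
    have h2 := far_AT hT
    rw [← hK] at h2
    have h3 : ρ / T = 0 := by rw [h0, Nat.zero_div]
    rw [h3, pow_zero, mul_one]
    refine h1.trans (h2.trans (ENNReal.ofReal_le_ofReal ?_))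
    have : 0 < K * C := by positivity
    linarith
  · apply gf_le_of_finset
    intro s hs
    rw [gf_finset]
    apply ENNReal.ofReal_le_ofReal
    obtain ⟨L, hL⟩ : ∃ L : ℕ, L = s.sup List.length + ρ + 1 := ⟨_, rfl⟩
    have hlen : ∀ t ∈ s, t.length + ρ + 1 ≤ L := by
      intro t ht
      have := Finset.le_sup (f := List.length) ht
      omega
    have hex : ∀ t ∈ s, t ∈ ex0 (Tube.dF upd oo true T L L) (oo, up) ∧ dx up t t.length = -up := by
      intro t ht
      obtain ⟨⟨g1, g2, g3⟩, _⟩ := hs (Finset.mem_coe.2 ht)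
      have h1 := hlen t ht
      refine ⟨?_, g3⟩
      unfold ex0
      rw [Finset.mem_filter, mem_arr0]
      refine ⟨⟨?_, ?_⟩, ?_⟩
      · intro i h2 h3
        rw [Tube.mem_dF]
        have h4 : vx oo up t i ∈ St T := g1.mem i h2 h3
        have h5 := far_nn t i
        rw [abs_le] at h5
        have h6 : (i : ℤ) ≤ t.length := by exact_mod_cast h3
        have h7 : (t.length : ℤ) + ρ + 1 ≤ L := by exact_mod_cast h1
        have h8 : (1 : ℤ) ≤ ρ := by exact_mod_cast h0
        have e2 : ip (vx oo up t i - oo) (rotL up) = -nn (vx oo up t i) := by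
          simp only [ip, up, oo, rotL, nn, Prod.fst_sub, Prod.snd_sub]
          ring
        have e3 : ip (vx oo up t i - oo) (Tube.gn true up) = nn (vx oo up t i) := by
          show ip (vx oo up t i - oo) (rotR (rotR up)) = _
          simp only [ip, up, oo, rotR, nn, Prod.fst_sub, Prod.snd_sub]
          ring
        refine ⟨h4, ?_, ?_⟩
        · rw [e2]
          linarith [h5.1]
        · rw [e3]
          show _ < 3 * (L : ℤ) - 1
          linarith [h5.2]
      · intro i k _ h3 h4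
        exact g1.inj i k h3 h4
      · intro h2
        rw [Tube.mem_dF] at h2
        exact g2 h2.1
    have key : ∀ A : Finset (List Bool), A ⊆ s →
        ((∀ t ∈ A, ∃ i, 1 ≤ i ∧ i ≤ t.length ∧ (3 * ρ - 1 : ℤ) ≤ nn (vx oo up t i)) ∨
          (∀ t ∈ A, ∃ i, 1 ≤ i ∧ i ≤ t.length ∧ nn (vx oo up t i) ≤ -(3 * ρ : ℤ))) →
        ∑ t ∈ A, xc ^ t.length ≤ K * C * q ^ (ρ / T) := by
      intro A hA hc
      have h1 := arcA_foot hg (u := (1, 0)) (v0 := oo) (d := up) (P := Tube.dF upd oo true T L L) (T := T)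
        (L := L) (r := L) hT (by omega) (by omega) (fun w => by
          rw [mulE_one]
          have : oo + w = w := zero_add w
          rw [this]) (mulE_one up) (ρ := ρ) h0 (A := A) (fun t ht => hex t (hA ht))
        (by
          rcases hc with hc | hc
          · exact Or.inl ⟨by omega, hc⟩
          · exact Or.inr ⟨by omega, hc⟩)
      refine h1.trans ?_
      rw [← hK]
      apply mul_le_mul_of_nonneg_left _ (by positivity)
      have h2 := uu_le_one (min ρ T)
      have h3 : 0 ≤ q ^ (ρ / T) := pow_nonneg hq.le _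
      nlinarith
    have h1 := Finset.sum_filter_add_sum_filter_not s
      (fun t => ∃ i, 1 ≤ i ∧ i ≤ t.length ∧ (3 * ρ - 1 : ℤ) ≤ nn (vx oo up t i)) (fun t => xc ^ t.length)
    have h2 := key _ (Finset.filter_subset
      (fun t => ∃ i, 1 ≤ i ∧ i ≤ t.length ∧ (3 * ρ - 1 : ℤ) ≤ nn (vx oo up t i)) s)
      (Or.inl (fun t ht => (Finset.mem_filter.1 ht).2))
    have h3 := key _ (Finset.filter_subset
      (fun t => ¬ ∃ i, 1 ≤ i ∧ i ≤ t.length ∧ (3 * ρ - 1 : ℤ) ≤ nn (vx oo up t i)) s)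
      (Or.inr (fun t ht => by
        obtain ⟨ht1, ht2⟩ := Finset.mem_filter.1 ht
        obtain ⟨_, i, i1, i2, i3⟩ := hs (Finset.mem_coe.2 ht1)
        refine ⟨i, i1, i2, ?_⟩
        by_contra hcon
        rcases le_abs.1 i3 with h4 | h4
        · exact ht2 ⟨i, i1, i2, by linarith⟩
        · apply hcon
          linarith))
    have h4 : 0 ≤ K * q ^ (ρ / T) := by positivity
    calc ∑ t ∈ s, xc ^ t.length ≤ K * C * q ^ (ρ / T) + K * C * q ^ (ρ / T) := by linarith
      _ ≤ (2 * (K * C) + K) * q ^ (ρ / T) := by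
        have : (2 * (K * C) + K) * q ^ (ρ / T) = K * C * q ^ (ρ / T) + K * C * q ^ (ρ / T) + K * q ^ (ρ / T) := by
          ring
        linarith

end TH

end HexObs
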