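import Pool.Agent.TH.FarA
import Pool.Agent.HexLoop.Wind

/-!
THETA, module H4 (b): polygons rooted at a lowest vertex and arcs of the strip.
-/

set_option autoImplicit false

namespace HexObs

namespace TH

open LP Finset ENNReal

/-- the first n turns. -/
def tk (τ : ℕ → Bool) (n : ℕ) : List Bool := List.ofFn (fun i : Fin n => τ i)

lemma tk_len (τ : ℕ → Bool) (n : ℕ) : (tk τ n).length = n := List.length_ofFn

lemma tf_tk {τ : ℕ → Bool} {n i : ℕ} (h : i < n) : tf (tk τ n) i = τ i := by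
  unfold tf tk
  rw [List.getD_eq_getElem _ _ (by rw [List.length_ofFn]; exact h)]
  simp

/-- the arc of a polygon rooted at a lowest vertex. -/
def wd (τ : ℕ → Bool) (m : ℕ) (b c : Bool) : List Bool :=
  if c then b :: (tk τ (m - 2) ++ [b, !b]) else b :: (tk τ (m - 3) ++ [b])

lemma tf_pre {τ : ℕ → Bool} {b : Bool} {n : ℕ} {s : List Bool} {i : ℕ} (hi : i < n) :
    tf (b :: (tk τ n ++ s)) (i + 1) = τ i := by
  show tf (tk τ n ++ s) i = τ i
  rw [tf_append_left (by rw [tk_len]; exact hi), tf_tk hi]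

lemma tf_suf {τ : ℕ → Bool} {b : Bool} {n : ℕ} {s : List Bool} (i : ℕ) :
    tf (b :: (tk τ n ++ s)) (n + i + 1) = tf s i := by
  show tf (tk τ n ++ s) (n + i) = tf s i
  have h := tf_append_right (t := tk τ n) (s := s) i
  rwa [tk_len] at h

lemma vx_pre {τ : ℕ → Bool} {b : Bool} {n : ℕ} {s : List Bool} {i : ℕ} (hi : i ≤ n + 1) :
    vx oo up (b :: (tk τ n ++ s)) (i + 1) = vs up (turn b up) τ i := by
  unfold vx
  rw [add_comm, vs_shift]
  have e1 : vs oo up (tf (b :: (tk τ n ++ s))) 1 = up := zero_add up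
  have e2 : ds up (tf (b :: (tk τ n ++ s))) 1 = turn b up := rfl
  rw [e1, e2]
  apply vs_congr
  intro k hk
  show tf (b :: (tk τ n ++ s)) (1 + k) = τ k
  rw [add_comm]
  exact tf_pre (by omega)

lemma dx_pre {τ : ℕ → Bool} {b : Bool} {n : ℕ} {s : List Bool} {i : ℕ} (hi : i ≤ n) :
    dx up (b :: (tk τ n ++ s)) (i + 1) = ds (turn b up) τ i := by
  unfold dx
  rw [add_comm, ds_shift]
  have e2 : ds up (tf (b :: (tk τ n ++ s))) 1 = turn b up := rfl
  rw [e2]
  apply ds_congr
  intro k hk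
  show tf (b :: (tk τ n ++ s)) (1 + k) = τ k
  rw [add_comm]
  exact tf_pre (by omega)

lemma vs_tr (v a d : Pt) (τ : ℕ → Bool) (i : ℕ) : vs (v + a) d τ i = vs v d τ i + a := by
  induction i with
  | zero => rfl
  | succ i ih =>
    rw [vs_succ, vs_succ, ih]
    abel

lemma vs_up (v d : Pt) (τ : ℕ → Bool) (i : ℕ) : vs up d τ i = vs v d τ i - v + up := by
  have h := vs_tr up (v - up) d τ i
  have e : up + (v - up) = v := by abel
  rw [e] at h
  rw [h]
  abel

/-! steps -/

lemma st_low : ∀ d ∈ dirs, ∀ x : Bool, ∀ c : ZMod 3, c ≠ 1 → c - cl d ≠ 1 → c + cl (turn x d) ≠ 1 → lv d ≤ 0 →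
    0 ≤ lv (turn x d) → c = 2 ∧ ∃ b, turn x d = turn b up ∧ d = -turn (!b) up := by
  decide

lemma st_a : ∀ b x : Bool, ∀ f ∈ dirs, turn x f = -turn (!b) up → f = -up ∨ f = turn b up := by
  decide

lemma st_c : ∀ b x : Bool, ∀ g ∈ dirs, turn x g = turn b up → lv g ≤ 0 → g = -turn (!b) up := by
  decide

lemma st_d : ∀ b x : Bool, turn x up = turn b up ∨ -turn (!x) up = -turn b up := by
  decide

lemma st_e : ∀ b : Bool, turn b (-up) = -turn b up ∧ turn (!b) (-turn b up) = -up ∧ turn b (-turn (!b) up) = -up ∧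
    turn b up ≠ turn (!b) up := by
  decide

lemma st_f : ∀ b : Bool, lv (turn b up) = 1 ∧ cl (turn b up) = 1 ∧ -2 ≤ nn (turn b up) ∧ nn (turn b up) ≤ 2 := by
  decide

lemma lv_add (v w : Pt) : lv (v + w) = lv v + lv w := by
  unfold lv
  simp only [Prod.fst_add, Prod.snd_add]
  ring

lemma lv_sub (v w : Pt) : lv (v - w) = lv v - lv w := by
  unfold lv
  simp only [Prod.fst_sub, Prod.snd_sub]
  ring

lemma nn_add (v w : Pt) : nn (v + w) = nn v + nn w := by
  unfold nn
  simp only [Prod.fst_add, Prod.snd_add]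
  ring

lemma nn_sub (v w : Pt) : nn (v - w) = nn v - nn w := by
  unfold nn
  simp only [Prod.fst_sub, Prod.snd_sub]
  ring

lemma cl_sub' (v w : Pt) : cl (v - w) = cl v - cl w := cl_sub v w

lemma lv_up : lv up = 2 ∧ nn up = -1 ∧ cl up = 2 := by decide

lemma mem_St {T : ℕ} {v : Pt} : v ∈ St T ↔ (cl v = 0 ∨ cl v = 2) ∧ 0 < lv v ∧ lv v < 3 * T + 2 := by
  have e1 : ip (v - oo) up = lv v := by
    simp only [ip, up, oo, lv, Prod.fst_sub, Prod.snd_sub]
    ring
  show (IsHex oo up v ∧ 0 < ip (v - oo) up ∧ ip (v - oo) up < 3 * T + 2) ↔ _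
  rw [e1, arcA_hex]

lemma poly_vs_mem {v d : Pt} {τ : ℕ → Bool} {m : ℕ} (h : Poly v d τ m) (i : ℕ) : vs v d τ i ∈ VE (pe v d τ m) :=
  Finset.mem_image_of_mem Prod.fst (w_eg_mem h i)

lemma poly_vs_cl {v d : Pt} {τ : ℕ → Bool} {m : ℕ} (h : Poly v d τ m) (i : ℕ) : cl (vs v d τ i) ≠ 1 :=
  (poly_de h i).2.1

/-- every polygon can be rooted at a lowest vertex. -/
theorem low_root {E : Finset (Pt × Pt)} (hE : IsPoly E) : ∃ v b τ m, Poly v (turn b up) τ m ∧
    E = pe v (turn b up) τ m ∧ ds (turn b up) τ (m - 1) = -turn (!b) up ∧ cl v = 2 ∧ v ∈ VE E ∧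
    ∀ w ∈ VE E, lv v ≤ lv w := by
  obtain ⟨v, hv, hmin⟩ : ∃ v ∈ VE E, ∀ w ∈ VE E, lv v ≤ lv w := by
    apply Finset.exists_min_image
    obtain ⟨v, d, τ, m, h, rfl⟩ := hE
    exact ⟨_, poly_vs_mem h 0⟩
  obtain ⟨e, x, h1, h2⟩ := isPoly_prev hE hv
  have hd1 := isPoly_de hE h1
  have hd2 := isPoly_de hE h2
  obtain ⟨y, h3⟩ := isPoly_next hE h2
  have a1 : lv v ≤ lv (v - e) := hmin _ (Finset.mem_image_of_mem Prod.fst h1)
  have a2 : lv v ≤ lv (v + turn x e) := hmin _ (Finset.mem_image_of_mem Prod.fst h3)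
  rw [lv_sub] at a1
  rw [lv_add] at a2
  have c1 : cl v ≠ 1 := hd2.2.1
  have c2 : cl (v - e) ≠ 1 := hd1.2.1
  have c3 : cl (v + turn x e) ≠ 1 := hd2.2.2
  rw [cl_sub'] at c2
  rw [cl_add] at c3
  obtain ⟨hc, b, hb1, hb2⟩ := st_low e hd1.1 x (cl v) c1 c2 c3 (by linarith) (by linarith)
  rw [hb1] at h2
  obtain ⟨τ, m, hP, hEE⟩ := root_at hE h2
  refine ⟨v, b, τ, m, hP, hEE, ?_, hc, hv, hmin⟩
  have hP' : Poly v (turn b up) τ m := hP
  rw [hEE] at h1
  unfold pe at h1
  obtain ⟨k, hk, hk2⟩ := Finset.mem_image.1 h1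
  rw [Finset.mem_range] at hk
  have k1 : vs v (turn b up) τ k = v - e := congrArg Prod.fst hk2
  have k2 : ds (turn b up) τ k = e := congrArg Prod.snd hk2
  have k3 : vs v (turn b up) τ (k + 1) = vs v (turn b up) τ 0 := by
    rw [vs_succ, k1, k2]
    show v - e + e = v
    abel
  have k4 := w_mod_eq hP' k3
  have k5 : m - 1 = k := by
    rw [Nat.zero_mod] at k4
    by_contra hcon
    rw [Nat.mod_eq_of_lt (by omega)] at k4
    omega
  rw [k5, k2, hb2]

/-- the polygon is determined by its root and its arc. -/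
theorem poly_inj {v : Pt} {b c : Bool} {τ σ : ℕ → Bool} {m n : ℕ} (h1 : Poly v (turn b up) τ m)
    (h2 : Poly v (turn b up) σ n) (l1 : ds (turn b up) τ (m - 1) = -turn (!b) up)
    (l2 : ds (turn b up) σ (n - 1) = -turn (!b) up) (k1 : c = false → ds (turn b up) τ (m - 2) = turn b up)
    (k2 : c = false → ds (turn b up) σ (n - 2) = turn b up) (hw : wd τ m b c = wd σ n b c) :
    pe v (turn b up) τ m = pe v (turn b up) σ n := by
  have hm := poly_len h1
  have hn := poly_len h2
  have key : m = n ∧ ∀ i, i < m → eg v (turn b up) τ i = eg v (turn b up) σ i := by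
    cases c with
    | true =>
      have hw' : b :: (tk τ (m - 2) ++ [b, !b]) = b :: (tk σ (n - 2) ++ [b, !b]) := hw
      have hl := congrArg List.length hw'
      simp only [List.length_cons, List.length_append, tk_len, List.length_nil] at hl
      have hmn : m = n := by omega
      subst hmn
      have ht : ∀ i, i < m - 2 → τ i = σ i := by
        intro i hi
        rw [← tf_pre (τ := τ) (b := b) (s := [b, !b]) hi, hw', tf_pre hi]
      refine ⟨rfl, fun i hi => ?_⟩
      have e1 : vs v (turn b up) τ i = vs v (turn b up) σ i := vs_congr i (fun k hk => ht k (by omega))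
      have e2 : ds (turn b up) τ i = ds (turn b up) σ i := by
        rcases Nat.lt_or_ge i (m - 1) with h3 | h3
        · exact ds_congr i (fun k hk => ht k (by omega))
        · have : i = m - 1 := by omega
          rw [this, l1, l2]
      unfold eg
      rw [e1, e2]
    | false =>
      have hw' : b :: (tk τ (m - 3) ++ [b]) = b :: (tk σ (n - 3) ++ [b]) := hw
      have hl := congrArg List.length hw'
      simp only [List.length_cons, List.length_append, tk_len, List.length_nil] at hl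
      have hmn : m = n := by omega
      subst hmn
      have k1' := k1 rfl
      have k2' := k2 rfl
      have ht : ∀ i, i < m - 3 → τ i = σ i := by
        intro i hi
        rw [← tf_pre (τ := τ) (b := b) (s := [b]) hi, hw', tf_pre hi]
      have hv : ∀ i, i ≤ m - 2 → vs v (turn b up) τ i = vs v (turn b up) σ i :=
        fun i hi => vs_congr i (fun k hk => ht k (by omega))
      refine ⟨rfl, fun i hi => ?_⟩
      rcases Nat.lt_or_ge i (m - 2) with h3 | h3
      · unfold eg
        rw [hv i h3.le, ds_congr i (fun k hk => ht k (by omega))]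
      · have h4 : i = m - 2 ∨ i = m - 1 := by omega
        rcases h4 with h4 | h4
        · unfold eg
          rw [h4, hv _ le_rfl, k1', k2']
        · have h5 : m - 1 = m - 2 + 1 := by omega
          unfold eg
          rw [h4, l1, l2, h5, vs_succ, vs_succ, hv _ le_rfl, k1', k2']
  obtain ⟨rfl, h3⟩ := key
  unfold pe
  apply Finset.image_congr
  intro i hi
  rw [Finset.mem_coe, Finset.mem_range] at hi
  exact h3 i hi

end TH

end HexObs
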