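import Pool.Agent.TH.Ball
import Pool.Agent.NUF.Wide
import Pool.Agent.NUF.MeanUp

/-!
THETA, module H6, part 3: the gas of nested polygons and the mean length of the bridges, from the sum of the squares
of the numbers of rows.
-/

set_option autoImplicit false

namespace HexObs

namespace TH

open LP Finset ENNReal

/-- the gas in the parallelograms. -/
theorem NF_ball {lam C D : ℝ} (hlam : 0 ≤ lam) (hsq : ∀ R : ℕ, 1 ≤ R →
      nu (fun E => if ro 0 E ≤ R then ((ro 0 E : ℝ≥0∞)) ^ 2 else 0) ≤ ENNReal.ofReal (4 * lam * Real.log R + C))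
    (h1 : nu (fun _ => 1) ≤ ENNReal.ofReal D) :
    ∃ C' : ℝ, ∀ r : ℕ, 1 ≤ r → NF (2 : ℝ) (PP r r) f0 ≤ C' * (r : ℝ) ^ (3 * lam) := by
  refine ⟨Real.exp (3 / 4 * (4 * lam * Real.log 4 + |C|) + |D| / 4), ?_⟩
  intro r hr
  have hr0 : (0 : ℝ) < r := by exact_mod_cast hr
  have hr1 : (1 : ℝ) ≤ r := by exact_mod_cast hr
  have hlr : 0 ≤ Real.log r := Real.log_nonneg hr1
  have hl4 : 0 ≤ Real.log 4 := Real.log_nonneg (by norm_num)
  have h2 := LL_sq r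
  have h3 := hsq (4 * r) (by omega)
  have e1 : Real.log ((4 * r : ℕ) : ℝ) = Real.log 4 + Real.log r := by
    push_cast
    exact Real.log_mul (by norm_num) hr0.ne'
  rw [e1] at h3
  have h4 : nu (fun E => if ro 0 E ≤ 4 * r then ((ro 0 E : ℝ≥0∞)) ^ 2 else 0) ≤
      ENNReal.ofReal (4 * lam * (Real.log 4 + Real.log r) + |C|) :=
    h3.trans (ENNReal.ofReal_le_ofReal (by linarith [le_abs_self C]))
  have h5 : nu (fun _ => 1) ≤ ENNReal.ofReal |D| := h1.trans (ENNReal.ofReal_le_ofReal (le_abs_self D))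
  have hA : 0 ≤ 4 * lam * (Real.log 4 + Real.log r) + |C| := by positivity
  have h6 : ENNReal.ofReal (4 * LL (PP r r) f0) ≤
      ENNReal.ofReal (3 * (4 * lam * (Real.log 4 + Real.log r) + |C|) + |D|) := by
    rw [ENNReal.ofReal_mul (by norm_num), ENNReal.ofReal_add (by positivity) (abs_nonneg _),
      ENNReal.ofReal_mul (by norm_num)]
    have e4 : ENNReal.ofReal 4 = 4 := by norm_num
    have e3 : ENNReal.ofReal 3 = 3 := by norm_num
    rw [e4, e3]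
    refine h2.trans ?_
    gcongr
  have h7 : 4 * LL (PP r r) f0 ≤ 3 * (4 * lam * (Real.log 4 + Real.log r) + |C|) + |D| :=
    (ENNReal.ofReal_le_ofReal_iff (by positivity)).1 h6
  refine (NF_le_exp _ _).trans ?_
  rw [Real.rpow_def_of_pos hr0, ← Real.exp_add]
  apply Real.exp_le_exp.2
  nlinarith

/-- the mean length of the bridges. -/
theorem meanLen_theta {c : ℝ} (hc : 0 ≤ c) (hsq : ∀ lam : ℝ, c < lam → ∃ C : ℝ, ∀ R : ℕ, 1 ≤ R →
      nu (fun E => if ro 0 E ≤ R then ((ro 0 E : ℝ≥0∞)) ^ 2 else 0) ≤ ENNReal.ofReal (4 * lam * Real.log R + C))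
    (h1 : nu (fun _ => 1) ≠ ∞) (a : ℝ) (ha : 5 / 4 + 3 * c < a) : ∃ C : ℝ, 0 ≤ C ∧ T2.MeanLen a C := by
  obtain ⟨D, hD⟩ : ∃ D : ℝ, nu (fun _ => 1) ≤ ENNReal.ofReal D :=
    ⟨(nu (fun _ => 1)).toReal, by rw [ENNReal.ofReal_toReal h1]⟩
  have hball : ∀ ε : ℝ, 0 < ε → ∃ C : ℝ, ∀ r : ℕ, 1 ≤ r → NF (2 : ℝ) (PP r r) f0 ≤ C * (r : ℝ) ^ (3 * c + ε) := by
    intro ε hε
    obtain ⟨C, hC⟩ := hsq (c + ε / 3) (by linarith)
    obtain ⟨C', hC'⟩ := NF_ball (by linarith) hC hD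
    have e : 3 * (c + ε / 3) = 3 * c + ε := by ring
    rw [e] at hC'
    exact ⟨C', hC'⟩
  obtain ⟨C, hC⟩ := strip_of_ball (by norm_num) (by linarith) hball (a - (5 / 4 + 3 * c)) (by linarith)
  obtain ⟨C', hC', h2⟩ := meanLen_of_NF hC
  refine ⟨C', hC', ?_⟩
  have e : 5 / 4 + (3 * c + (a - (5 / 4 + 3 * c))) = a := by ring
  rwa [e] at h2

end TH

end HexObs
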