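import Pool.Agent.TH.Base
import Pool.Agent.HexLoop.Cnt5

/-!
# The sum over the polygons around a face in the strip, modulo translations
-/

set_option autoImplicit false

namespace HexObs

namespace TH

open LP Finset ENNReal

theorem lv_Fc {g : Pt} (hg : Fc g) : ∃ a : ℤ, lv g = 1 + 3 * a := by
  have h1 : ((lv g - 1 : ℤ) : ZMod 3) = 0 := by
    unfold Fc cl at hg
    unfold lv
    push_cast
    push_cast at hg
    have h2 : (2 : ZMod 3) = -1 := by decide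
    rw [h2]
    linear_combination hg
  rw [ZMod.intCast_zmod_eq_zero_iff_dvd] at h1
  obtain ⟨a, ha⟩ := h1
  exact ⟨a, by push_cast at ha; linarith⟩

theorem ro_PP {m M : ℕ} {E : Finset (Pt × Pt)} (hE : E ∈ polys (PP m M)) (hf : Nw E f0 ≠ 0) : ro 0 E ≤ 2 * m := by
  obtain ⟨hP, hV⟩ := mem_polys.1 hE
  have hF : ∀ g ∈ Fi E, ∃ a : ℤ, lv g = 1 + 3 * a ∧ 1 - (m : ℤ) ≤ a ∧ a ≤ (m : ℤ) - 1 := by
    intro g hg
    obtain ⟨h1, h2⟩ := (mem_Fi hP).1 hg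
    obtain ⟨a, ha⟩ := lv_Fc h1
    obtain ⟨⟨v, hv, e1⟩, ⟨w, hw, e2⟩, _, _⟩ := fi_bounds hP (g := g) ⟨h1, h2⟩
    have k1 := (mem_PP.1 (hV hv)).2.1
    have k2 := (mem_PP.1 (hV hw)).2.1
    rw [abs_lt] at k1 k2
    refine ⟨a, ha, ?_, ?_⟩ <;> omega
  have h0 : f0 ∈ Fi E := (mem_Fi hP).2 ⟨Fc_f0, hf⟩
  obtain ⟨a0, _, b1, b2⟩ := hF f0 h0
  have hm : 1 ≤ m := by omega
  have hsup : (Fi E ×ˢ Fi E).sup (fun p => ((ga 0 p.1 - ga 0 p.2) / 3).toNat) ≤ 2 * m - 1 := by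
    refine Finset.sup_le fun p hp => ?_
    obtain ⟨hp1, hp2⟩ := Finset.mem_product.1 hp
    obtain ⟨a, ha, c1, c2⟩ := hF _ hp1
    obtain ⟨b, hb, d1, d2⟩ := hF _ hp2
    have e1 : ga 0 p.1 = lv p.1 := rfl
    have e2 : ga 0 p.2 = lv p.2 := rfl
    rw [e1, e2, ha, hb]
    have : (1 + 3 * a - (1 + 3 * b)) / 3 = a - b := by
      rw [show 1 + 3 * a - (1 + 3 * b) = 3 * (a - b) by ring]
      exact Int.mul_ediv_cancel_left _ (by norm_num)
    rw [this]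
    omega
  unfold ro
  omega

theorem LL_nu (m M : ℕ) : ENNReal.ofReal (LL (PP m M) f0) ≤
    nu (fun E => if ro 0 E ≤ 2 * m then ((Fi E).card : ℝ≥0∞) else 0) := by
  classical
  unfold LL
  rw [ENNReal.ofReal_sum_of_nonneg fun E _ => pow_nonneg xc_pos.le _]
  unfold nu
  have hsub : ∀ E ∈ (polys (PP m M)).filter (fun E => Nw E f0 ≠ 0), IsPoly E ∧ Nw E f0 ≠ 0 := by
    intro E hE
    obtain ⟨h1, h2⟩ := Finset.mem_filter.1 hE
    exact ⟨(mem_polys.1 h1).1, h2⟩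
  have key : ∑ E ∈ (polys (PP m M)).filter (fun E => Nw E f0 ≠ 0), ENNReal.ofReal (xc ^ E.card) =
      ∑ E : {E // E ∈ (polys (PP m M)).filter (fun E => Nw E f0 ≠ 0)},
        (fun E : {E : Finset (Pt × Pt) // IsPoly E ∧ Nw E f0 ≠ 0} =>
          (if ro 0 E.1 ≤ 2 * m then ((Fi E.1).card : ℝ≥0∞) else 0) * ENNReal.ofReal (xc ^ E.1.card) /
            ((Fi E.1).card : ℝ≥0∞)) ⟨E.1, hsub E.1 E.2⟩ := by
    rw [← Finset.sum_coe_sort]
    refine Finset.sum_congr rfl fun E _ => ?_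
    obtain ⟨h1, h2⟩ := Finset.mem_filter.1 E.2
    have hP := (mem_polys.1 h1).1
    have h3 := ro_PP h1 h2
    simp only
    rw [if_pos h3]
    have hc : (Fi E.1).card ≠ 0 := Finset.card_ne_zero_of_mem ((mem_Fi hP).2 ⟨Fc_f0, h2⟩)
    rw [mul_comm, ENNReal.mul_div_cancel_right (by exact_mod_cast hc) (ENNReal.natCast_ne_top _)]
  rw [key, ← tsum_fintype (L := SummationFilter.unconditional _)]
  exact ENNReal.tsum_comp_le_tsum_of_injective
    (f := fun E : {E // E ∈ (polys (PP m M)).filter (fun E => Nw E f0 ≠ 0)} =>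
      (⟨E.1, hsub E.1 E.2⟩ : {E : Finset (Pt × Pt) // IsPoly E ∧ Nw E f0 ≠ 0}))
    (fun a b h => Subtype.ext (by simpa using congrArg Subtype.val h)) _

end TH

end HexObs
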