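import Pool.Agent.HexLoop.Refl
import Pool.Agent.HexLoop.DefsD

/-!
THETA, module H2: the rotation by 60 degrees around the face f0; polygons and winding numbers.
-/

set_option autoImplicit false

namespace HexObs

namespace TH

open LP Finset

/-- rotation of vectors by 60 degrees -/
def rd (d : Pt) : Pt := mulE (0, 1) d

/-- rotation by 60 degrees around f0 -/
def Ro (v : Pt) : Pt := f0 + rd (v - f0)

/-- rotation of directed edges -/
def Rp (p : Pt × Pt) : Pt × Pt := (Ro p.1, rd p.2)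

/-- the rotated polygon -/
def RoE (E : Finset (Pt × Pt)) : Finset (Pt × Pt) := E.image Rp

lemma rd_eq (d : Pt) : rd d = (-d.2, d.1 + d.2) := by
  unfold rd mulE
  ext <;> simp

lemma Ro_eq (v : Pt) : Ro v = (1 - v.2, v.1 + v.2 - 1) := by
  unfold Ro f0
  rw [rd_eq]
  ext <;> simp <;> ring

lemma Ro_add (v d : Pt) : Ro (v + d) = Ro v + rd d := by
  rw [Ro_eq, Ro_eq, rd_eq]
  ext <;> simp <;> ring

lemma rd_inj : Function.Injective rd := by
  intro a b h
  rw [rd_eq, rd_eq, Prod.mk.injEq] at h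
  ext <;> omega

lemma Ro_inj : Function.Injective Ro := by
  intro a b h
  rw [Ro_eq, Ro_eq, Prod.mk.injEq] at h
  ext <;> omega

lemma Rp_inj : Function.Injective Rp := by
  intro p q h
  unfold Rp at h
  rw [Prod.mk.injEq] at h
  exact Prod.ext (Ro_inj h.1) (rd_inj h.2)

lemma Ro_f0 : Ro f0 = f0 := by
  rw [Ro_eq]
  rfl

lemma Ro6 (v : Pt) : Ro (Ro (Ro (Ro (Ro (Ro v))))) = v := by
  simp only [Ro_eq]
  ext <;> simp <;> ring

lemma rd6 (v : Pt) : rd (rd (rd (rd (rd (rd v))))) = v := by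
  simp only [rd_eq]
  ext <;> simp

lemma cl_Ro (v : Pt) : cl (Ro v) = 2 - cl v := by
  rw [Ro_eq]
  unfold cl
  push_cast
  have : (3 : ZMod 3) = 0 := by decide
  linear_combination -(v.2 : ZMod 3) * this

lemma Ro_Vt {v : Pt} : Vt (Ro v) ↔ Vt v := by
  unfold Vt
  rw [cl_Ro]
  have h : ∀ c : ZMod 3, 2 - c ≠ 1 ↔ c ≠ 1 := by decide
  exact h _

lemma Ro_Fc {v : Pt} : Fc (Ro v) ↔ Fc v := by
  unfold Fc
  rw [cl_Ro]
  have h : ∀ c : ZMod 3, 2 - c = 1 ↔ c = 1 := by decide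
  exact h _

lemma rd_dirs {d : Pt} : rd d ∈ dirs ↔ d ∈ dirs := by
  have h : ∀ d ∈ dirs, rd d ∈ dirs := by decide
  constructor
  · intro h1
    have h2 := h _ (h _ (h _ (h _ (h _ h1))))
    rwa [rd6] at h2
  · exact h d

lemma De_Rp {p : Pt × Pt} : De (Rp p) ↔ De p := by
  unfold De Rp
  simp only
  rw [rd_dirs, Ro_Vt, ← Ro_add, Ro_Vt]

lemma rd_neg (d : Pt) : rd (-d) = -rd d := mulE_neg _ _

lemma rv_Rp (p : Pt × Pt) : rv (Rp p) = Rp (rv p) := by
  unfold rv Rp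
  simp only [Ro_add, rd_neg]

lemma rd_turn (b : Bool) (d : Pt) : rd (turn b d) = turn b (rd d) := mulE_turn _ _ _

lemma rd_rotL (d : Pt) : rd (rotL d) = rotL (rd d) := by
  have := rd_turn true d
  simpa [turn] using this

lemma rd_rotR (d : Pt) : rd (rotR d) = rotR (rd d) := by
  have := rd_turn false d
  simpa [turn] using this

lemma ds_Ro (d : Pt) (τ : ℕ → Bool) (i : ℕ) : ds (rd d) τ i = rd (ds d τ i) := by
  induction i with
  | zero => rfl
  | succ i ih => rw [ds_succ, ds_succ, ih, rd_turn]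

lemma vs_Ro (v d : Pt) (τ : ℕ → Bool) (i : ℕ) : vs (Ro v) (rd d) τ i = Ro (vs v d τ i) := by
  induction i with
  | zero => rfl
  | succ i ih => rw [vs_succ, vs_succ, ih, ds_Ro, Ro_add]

lemma eg_Ro (v d : Pt) (τ : ℕ → Bool) (i : ℕ) : eg (Ro v) (rd d) τ i = Rp (eg v d τ i) := by
  unfold eg Rp
  rw [vs_Ro, ds_Ro]

lemma poly_Ro {v d : Pt} {τ : ℕ → Bool} {m : ℕ} (h : Poly v d τ m) : Poly (Ro v) (rd d) τ m := by
  refine ⟨h.pos, ?_, h.per, ?_, ?_, ?_⟩
  · exact (De_Rp (p := (v, d))).2 h.de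
  · rw [vs_Ro, h.clv]
  · rw [ds_Ro, h.cld]
  · intro i k h1 h2
    rw [vs_Ro, vs_Ro]
    exact fun e => h.inj i k h1 h2 (Ro_inj e)

lemma pe_Ro (v d : Pt) (τ : ℕ → Bool) (m : ℕ) : pe (Ro v) (rd d) τ m = RoE (pe v d τ m) := by
  unfold RoE pe
  rw [Finset.image_image]
  apply Finset.image_congr
  intro i _
  exact eg_Ro v d τ i

theorem isPoly_RoE {E : Finset (Pt × Pt)} (hE : IsPoly E) : IsPoly (RoE E) := by
  obtain ⟨v, d, τ, m, h, rfl⟩ := hE
  exact ⟨Ro v, rd d, τ, m, poly_Ro h, (pe_Ro v d τ m).symm⟩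

theorem mem_RoE {E : Finset (Pt × Pt)} {p : Pt × Pt} : Rp p ∈ RoE E ↔ p ∈ E := by
  unfold RoE
  rw [Finset.mem_image]
  constructor
  · rintro ⟨q, hq, h⟩
    rwa [Rp_inj h] at hq
  · intro h
    exact ⟨_, h, rfl⟩

theorem RoE6 (E : Finset (Pt × Pt)) : RoE (RoE (RoE (RoE (RoE (RoE E))))) = E := by
  unfold RoE
  simp only [Finset.image_image]
  have : Rp ∘ Rp ∘ Rp ∘ Rp ∘ Rp ∘ Rp = id := by
    funext p
    simp only [Function.comp, Rp, Ro6, rd6, id]
  rw [this, Finset.image_id]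

theorem card_RoE (E : Finset (Pt × Pt)) : (RoE E).card = E.card :=
  Finset.card_image_of_injective _ Rp_inj

theorem VE_RoE (E : Finset (Pt × Pt)) : VE (RoE E) = (VE E).image Ro := by
  unfold VE RoE
  rw [Finset.image_image, Finset.image_image]
  rfl

lemma nn_Ro (v : Pt) : nn (Ro v) = 2 - lv v := by
  rw [Ro_eq]
  unfold nn lv
  ring

private lemma Nw_RoE_aux {E : Finset (Pt × Pt)} (hE : IsPoly E) (L : ℤ)
    (hL : ∀ w ∈ VE E, L < lv w) (n : ℕ) : ∀ g, Fc g → lv g ≤ L + 3 * n → Nw (RoE E) (Ro g) = Nw E g := by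
  induction n with
  | zero =>
    intro g _ h
    have h1 : Nw E g = 0 := by
      apply Nw_low
      intro v hv
      have := hL v hv
      push_cast at h
      omega
    rw [h1]
    apply Nw_right (isPoly_RoE hE)
    intro v hv
    rw [VE_RoE, Finset.mem_image] at hv
    obtain ⟨w, hw, rfl⟩ := hv
    have h2 := hL _ hw
    rw [nn_Ro, nn_Ro]
    push_cast at h
    omega
  | succ n ih =>
    intro g hg h
    obtain ⟨h1, h2, h3, h4⟩ := rf_ray hg
    have h5 := ih (g + (-1, -1)) h2 (by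
      unfold lv at h ⊢
      push_cast at h
      simp only [Prod.fst_add, Prod.snd_add]
      omega)
    have h6 := Nw_edge hE h1
    have h7 := Nw_edge (isPoly_RoE hE) (De_Rp.2 h1)
    have e1 : ∀ p : Pt × Pt, (Rp p).1 + rotL (Rp p).2 = Ro (p.1 + rotL p.2) := by
      intro p
      rw [Ro_add, rd_rotL]
      rfl
    have e2 : ∀ p : Pt × Pt, (Rp p).1 + rotR (Rp p).2 = Ro (p.1 + rotR p.2) := by
      intro p
      rw [Ro_add, rd_rotR]
      rfl
    rw [e1, e2, rv_Rp] at h7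
    simp only [mem_RoE] at h6 h7
    rw [h3, h4] at h6 h7
    omega

theorem Nw_RoE {E : Finset (Pt × Pt)} (hE : IsPoly E) {g : Pt} (hg : Fc g) :
    Nw (RoE E) (Ro g) = Nw E g := by
  obtain ⟨L, hL⟩ : ∃ L : ℤ, ∀ w ∈ VE E, L < lv w := by
    obtain ⟨L, hL⟩ := ((VE E).image lv).bddBelow
    refine ⟨L - 1, fun w hw => ?_⟩
    have h1 : L ≤ lv w := hL (by
      rw [Finset.coe_image]
      exact Set.mem_image_of_mem _ hw)
    omega
  apply Nw_RoE_aux hE L hL (Int.toNat (lv g - L)) g hg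
  have : lv g - L ≤ (Int.toNat (lv g - L) : ℤ) := Int.self_le_toNat _
  omega

end TH

end HexObs
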